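import Pool.Agent.Run7.h582.OD.Od5
import Pool.Agent.Y346.SG.OCM
import Pool.Agent.R116.AF.DivApp

set_option autoImplicit false

/-!
The measures of the exceptional sets for the orders of difference sets with the Singer parameters.
-/

namespace Pool.Agent.Run7.h582.OD

open Finset Filter MeasureTheory
open Pool.Agent.H771R2.SingerDS
open Pool.Agent.Run7.h582.FM (Decay)
open Pool.Agent.W114.PQ (Dat Pass datS)
open Pool.Agent.Y346.SG (tau_prime pass0 mn_full)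
open Pool.Agent.Y346.SG.DS (datG)
open Pool.Agent.R116.AF (Adm datA axA pass_adm ExO adm_of_exO)

theorem meas_prime {L : ℕ} (hL : L.Prime) (h3 : 3 ≤ L) (μ : Measure ℝ) (hμ : Decay μ) :
    MeasG μ (fun v => 2 ≤ v → ¬ ∃ m : ℕ, Odd m ∧ 3 ≤ m ∧ L ∣ m ∧ HasSinger v.toNat m) := by
  have hfin : IsFiniteMeasure μ := hμ.1
  have hodd : Odd L := hL.odd_of_ne_two (by omega)
  have e1 : (datG L 0).τ + (datG L 0).β / 2 = 1 := by
    have e1 : (datG L 0).τ = (datS L).τ := rfl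
    have e2 : (datG L 0).β = 0 := rfl
    rw [e1, e2, tau_prime hL]
    norm_num
  refine (meas_pass mn_full Pool.Agent.Y346.SG.BK.bk (datG L 0)
    (Pool.Agent.Y346.SG.DS.ax Pool.Agent.Y79.SG2.low hodd h3 0 (Or.inl rfl)) e1 μ hμ).mono ?_
  rintro v hv hv2 ⟨m, hm, hm3, hLm, hS⟩
  exact hv (by omega) (pass0 0 hm hm3 hLm (by omega) hS (fun h0 => by norm_num at h0))

theorem meas_singer (K : ℕ) (μ : Measure ℝ) (hμ : Decay μ) :
    MeasG μ (fun v => 2 ≤ v → ¬ ∃ m : ℕ, Odd m ∧ 3 ≤ m ∧ m.minFac ≤ K ∧ HasSinger v.toNat m) := by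
  classical
  have hfin : IsFiniteMeasure μ := hμ.1
  have h1 := MeasG.all (μ := μ) ((Finset.range (K + 1)).filter (fun L => L.Prime ∧ 3 ≤ L))
    (P := fun L v => 2 ≤ v → ¬ ∃ m : ℕ, Odd m ∧ 3 ≤ m ∧ L ∣ m ∧ HasSinger v.toNat m) (fun L hL => by
      rw [mem_filter] at hL
      exact meas_prime hL.2.1 hL.2.2 μ hμ)
  refine h1.mono ?_
  rintro v hv hv2 ⟨m, hm, hm3, hK, hS⟩
  have hp : m.minFac.Prime := Nat.minFac_prime (by omega)
  have hd : m.minFac ∣ m := Nat.minFac_dvd m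
  have h3 : 3 ≤ m.minFac := by
    have h2 := hp.two_le
    rcases Nat.lt_or_ge 2 m.minFac with h | h
    · exact h
    · have h4 : m.minFac = 2 := by omega
      rw [h4] at hd
      rcases hm with ⟨k, hk⟩
      omega
  refine hv m.minFac ?_ hv2 ⟨m, hm, hm3, hd, hS⟩
  rw [mem_filter, mem_range]
  exact ⟨by omega, hp, h3⟩

theorem meas_adm (P : ℕ → Prop) (hP : ∀ n, P n → 2 ≤ n ∧ Adm n) (μ : Measure ℝ) (hμ : Decay μ) :
    MeasG μ (fun v => 0 < v → ¬ P v.toNat) := by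
  have hfin : IsFiniteMeasure μ := hμ.1
  have e1 : (datA 0).τ + (datA 0).β / 2 = 1 := by
    have e1 : (datA 0).τ = 1 := rfl
    have e2 : (datA 0).β = 0 := rfl
    rw [e1, e2]
    norm_num
  refine (meas_pass mn_full Pool.Agent.Y346.SG.BK.bk (datA 0) (axA 0 (Or.inl rfl)) e1 μ hμ).mono ?_
  intro v hv hv0 hn
  obtain ⟨h1, h2⟩ := hP _ hn
  exact hv hv0 (pass_adm h1 h2 0 (fun h0 => by norm_num at h0))

theorem meas_exO {P : ℕ → Prop} (hX : ExO P) (μ : Measure ℝ) (hμ : Decay μ) :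
    MeasG μ (fun v => 2 ≤ v → ¬ P v.toNat) := by
  have hfin : IsFiniteMeasure μ := hμ.1
  refine (meas_adm (fun n => 2 ≤ n ∧ P n) (fun n h => ⟨h.1, adm_of_exO hX h.1 h.2⟩) μ hμ).mono ?_
  intro v hv hv2 hn
  exact hv (by omega) ⟨by omega, hn⟩

end Pool.Agent.Run7.h582.OD
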