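import Pool.Agent.W52.PQ.SV

set_option autoImplicit false

/-!
Brun's pure sieve (all conditions modulo the squares of primes) for families of integers which are uniformly distributed
in the residue classes of all moduli up to `N ^ 2`, in the form of the starting file `Pool.Agent.W52.PQ.SV`.
-/

namespace Pool.Agent.Run7.h582.OD

open Finset
open Pool.Agent.H951R4.OD Pool.Agent.H951R4.OD.D1 Pool.Agent.H177R2.SD Pool.Agent.W114.PQ Pool.Agent.W52.PQ
open scoped Classical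

/-- the family is uniformly distributed in the classes of all moduli up to `N ^ 2` -/
def Uni (N : ℕ) {τ : Type} (S : Finset τ) (w : τ → ℤ) : Prop :=
  ∀ q : ℕ, 1 ≤ q → q ≤ N ^ 2 → ∀ a : ℤ,
    |((S.filter fun i => (q : ℤ) ∣ w i - a).card : ℝ) - S.card / q| ≤ S.card / (N : ℝ) ^ 2

lemma class_iff {a Q : ℕ} (ha : 1 ≤ a) {b : ℕ} (hb : b < Q) (v : ℤ) :
    ((a : ℤ) ∣ v ∧ ((v / a) % (Q : ℤ)).toNat = b) ↔ ((a * Q : ℕ) : ℤ) ∣ v - ((a * b : ℕ) : ℤ) := by
  have ha0 : (a : ℤ) ≠ 0 := by exact_mod_cast (by omega : a ≠ 0)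
  have hQ0 : (Q : ℤ) ≠ 0 := by exact_mod_cast (by omega : Q ≠ 0)
  constructor
  · rintro ⟨⟨u, rfl⟩, h⟩
    rw [Int.mul_ediv_cancel_left _ ha0] at h
    have h1 : u % (Q : ℤ) = b := by
      have := Int.emod_nonneg u hQ0
      omega
    have h2 : (Q : ℤ) ∣ u - b := by
      rw [← h1]
      exact Int.dvd_self_sub_emod
    have e : (a : ℤ) * u - ((a * b : ℕ) : ℤ) = a * (u - b) := by push_cast; ring
    rw [e, Nat.cast_mul]
    exact mul_dvd_mul_left _ h2
  · intro h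
    have h1 : (a : ℤ) ∣ v := by
      have h2 : (a : ℤ) ∣ v - ((a * b : ℕ) : ℤ) := (dvd_trans (by rw [Nat.cast_mul]; exact dvd_mul_right _ _) h)
      have h3 : (a : ℤ) ∣ ((a * b : ℕ) : ℤ) := by rw [Nat.cast_mul]; exact dvd_mul_right _ _
      have := dvd_add h2 h3
      rwa [sub_add_cancel] at this
    refine ⟨h1, ?_⟩
    obtain ⟨u, rfl⟩ := h1
    rw [Int.mul_ediv_cancel_left _ ha0]
    have e : (a : ℤ) * u - ((a * b : ℕ) : ℤ) = a * (u - b) := by push_cast; ring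
    rw [e, Nat.cast_mul] at h
    have h2 : (Q : ℤ) ∣ u - b := Int.dvd_of_mul_dvd_mul_left ha0 h
    have h3 : u % (Q : ℤ) = (b : ℤ) % Q := Int.emod_eq_emod_iff_emod_sub_eq_zero.2
      (Int.emod_eq_zero_of_dvd h2)
    have h4 : (b : ℤ) % Q = b := Int.emod_eq_of_lt (by positivity) (by exact_mod_cast hb)
    rw [h3, h4]
    simp

lemma count_res {N : ℕ} {τ : Type} {S : Finset τ} {w : τ → ℤ} (hU : Uni N S w) {a Q : ℕ} (ha : 1 ≤ a) (hQ : 1 ≤ Q)
    (haQ : a * Q ≤ N ^ 2) (F : ℕ → ℝ) (hF : ∀ n, 0 ≤ F n ∧ F n ≤ 1) :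
    |∑ i ∈ S.filter (fun i => (a : ℤ) ∣ w i), F (((w i / a) % (Q : ℤ)).toNat) -
      (S.card / a : ℝ) * ((∑ n ∈ range Q, F n) / Q)| ≤ Q * (S.card / (N : ℝ) ^ 2) := by
  have hQ0 : (Q : ℤ) ≠ 0 := by exact_mod_cast (by omega : Q ≠ 0)
  have hmaps : ∀ i ∈ S.filter (fun i => (a : ℤ) ∣ w i), ((w i / a) % (Q : ℤ)).toNat ∈ range Q := by
    intro i _
    rw [mem_range]
    have h1 := Int.emod_nonneg (w i / a) hQ0
    have h2 := Int.emod_lt_of_pos (w i / a) (show (0 : ℤ) < Q by omega)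
    omega
  rw [← Finset.sum_fiberwise_of_maps_to hmaps]
  have e1 : ∀ b ∈ range Q, ∑ i ∈ (S.filter (fun i => (a : ℤ) ∣ w i)).filter
      (fun i => ((w i / a) % (Q : ℤ)).toNat = b), F (((w i / a) % (Q : ℤ)).toNat) =
      F b * ((S.filter fun i => ((a * Q : ℕ) : ℤ) ∣ w i - ((a * b : ℕ) : ℤ)).card : ℝ) := by
    intro b hb
    rw [mem_range] at hb
    have e2 : (S.filter (fun i => (a : ℤ) ∣ w i)).filter (fun i => ((w i / a) % (Q : ℤ)).toNat = b) =
        S.filter fun i => ((a * Q : ℕ) : ℤ) ∣ w i - ((a * b : ℕ) : ℤ) := by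
      rw [filter_filter]
      exact filter_congr fun i _ => class_iff ha hb (w i)
    rw [← e2]
    have e3 : ∀ i ∈ (S.filter (fun i => (a : ℤ) ∣ w i)).filter (fun i => ((w i / a) % (Q : ℤ)).toNat = b),
        F (((w i / a) % (Q : ℤ)).toNat) = F b := by
      intro i hi
      rw [(mem_filter.1 hi).2]
    rw [sum_congr rfl e3, sum_const, nsmul_eq_mul, mul_comm]
  rw [sum_congr rfl e1]
  have haR : (0 : ℝ) < a := by exact_mod_cast ha
  have hQR : (0 : ℝ) < Q := by exact_mod_cast hQ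
  have e4 : (S.card / a : ℝ) * ((∑ n ∈ range Q, F n) / Q) = ∑ b ∈ range Q, F b * (S.card / ((a * Q : ℕ) : ℝ)) := by
    rw [← sum_mul]
    push_cast
    field_simp
  rw [e4, ← sum_sub_distrib]
  refine (abs_sum_le_sum_abs _ _).trans ?_
  have h5 : ∀ b ∈ range Q, |F b * ((S.filter fun i => ((a * Q : ℕ) : ℤ) ∣ w i - ((a * b : ℕ) : ℤ)).card : ℝ) -
      F b * (S.card / ((a * Q : ℕ) : ℝ))| ≤ S.card / (N : ℝ) ^ 2 := by
    intro b _
    rw [← mul_sub, abs_mul, abs_of_nonneg (hF b).1]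
    have h6 := hU (a * Q) (Nat.mul_pos ha hQ) haQ ((a * b : ℕ) : ℤ)
    calc F b * |((S.filter fun i => ((a * Q : ℕ) : ℤ) ∣ w i - ((a * b : ℕ) : ℤ)).card : ℝ) -
          (S.card / ((a * Q : ℕ) : ℝ))| ≤ 1 * (S.card / (N : ℝ) ^ 2) :=
          mul_le_mul (hF b).2 h6 (abs_nonneg _) zero_le_one
      _ = _ := one_mul _
  refine (sum_le_sum h5).trans ?_
  rw [sum_const, card_range, nsmul_eq_mul]

/-- Brun's sieve for families -/
theorem svf (κ : ℝ) (hκ : 1 ≤ κ) : ∃ C : ℝ, 1 ≤ C ∧ ∀ z N a : ℕ, 3 ≤ z → 1 ≤ a → a ≤ N →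
    C * Real.log z * (1 + Real.log (Real.log z)) ≤ Real.log N →
    ∀ (τ : Type) (Ω : Finset τ) (w : τ → ℤ), Uni N Ω w →
    ∀ (S : Finset ℕ) (h : ℕ → ℕ → ℝ), (∀ p ∈ S, p.Prime ∧ p ≤ z) →
    (∀ p ∈ S, ∀ n, h p n = 0 ∨ h p n = 1) → (∀ p ∈ S, ∀ n, h p (n + p ^ 2) = h p n) →
    (∀ p ∈ S, (∑ n ∈ range (p ^ 2), h p n) / (p : ℝ) ^ 2 ≤ κ / p) →
    ∑ i ∈ Ω.filter (fun i => (a : ℤ) ∣ w i), ∏ p ∈ S, (1 - h p (((w i / a) % ((p ^ 2 : ℕ) : ℤ)).toNat)) ≤
      C * (Ω.card / a) * Real.exp (-∑ p ∈ S, (∑ n ∈ range (p ^ 2), h p n) / (p : ℝ) ^ 2) := by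
  obtain ⟨C2, hC2, hmert⟩ := mert_le
  have hκC : 0 ≤ κ * C2 := by nlinarith
  refine ⟨18 + 66 * κ + Real.exp (κ * C2) + 64 * (κ * C2), by linarith [Real.exp_pos (κ * C2)], ?_⟩
  intro z N a hz ha haN hN τ Ω w hU S h hS h01 hper hmean
  have hzR : (3 : ℝ) ≤ z := by exact_mod_cast hz
  have hκ0 : 0 < κ := by linarith
  have haR : (0 : ℝ) < a := by exact_mod_cast ha
  have hcard0 : (0 : ℝ) ≤ Ω.card := Nat.cast_nonneg _
  set L := Real.log z with hL
  set LL := Real.log L with hLL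
  have hL1 : 1 < L := by
    have : Real.log 3 ≤ L := Real.log_le_log (by norm_num) hzR
    have h3 : 1 < Real.log 3 := by
      rw [Real.lt_log_iff_exp_lt (by norm_num)]
      have := Real.exp_one_lt_d9
      linarith
    linarith
  have hLL0 : 0 < LL := Real.log_pos hL1
  set η : ℕ → ℝ := fun p => (∑ n ∈ range (p ^ 2), h p n) / (p : ℝ) ^ 2 with hη
  have hηc : ∀ p, η p = (∑ n ∈ range (p ^ 2), h p n) / ((p ^ 2 : ℕ) : ℝ) := by
    intro p
    simp only [hη]
    push_cast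
    rfl
  have hη01 : ∀ p ∈ S, 0 ≤ η p ∧ η p ≤ 1 := by
    intro p hp
    rw [hηc]
    apply AvgAux.mean_01
    intro n
    rcases h01 p hp n with h | h <;> rw [h] <;> norm_num
  set Λ := ∑ p ∈ S, η p with hΛ
  have hΛ0 : 0 ≤ Λ := Finset.sum_nonneg fun p hp => (hη01 p hp).1
  have hΛ1 : Λ ≤ κ * LL + κ * C2 := by
    have hsub : S ⊆ PI 0 z := by
      intro p hp
      obtain ⟨h1, h2⟩ := hS p hp
      simp only [PI, mem_filter, mem_Ioc]
      exact ⟨⟨h1.pos, h2⟩, h1⟩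
    have h1 : Λ ≤ ∑ p ∈ PI 0 z, κ * ((1 : ℝ) / p) := by
      calc Λ ≤ ∑ p ∈ S, κ * ((1 : ℝ) / p) := by
            apply Finset.sum_le_sum
            intro p hp
            have := hmean p hp
            simp only [hη]
            calc _ ≤ κ / (p : ℝ) := this
              _ = κ * (1 / p) := by ring
        _ ≤ _ := by
            apply Finset.sum_le_sum_of_subset_of_nonneg hsub
            intro p _ _
            positivity
    rw [← Finset.mul_sum] at h1
    have h2 := (abs_le.1 (hmert z hz)).2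
    have h3 : κ * (∑ p ∈ PI 0 z, (1 : ℝ) / p) ≤ κ * (LL + C2) :=
      mul_le_mul_of_nonneg_left (by linarith) hκ0.le
    linarith
  set r : ℕ := ⌈4 * (κ * LL + κ * C2)⌉₊ with hr
  have hr1 : 4 * (κ * LL + κ * C2) ≤ r := Nat.le_ceil _
  have hr2 : (r : ℝ) < 4 * (κ * LL + κ * C2) + 1 := Nat.ceil_lt_add_one (by positivity)
  -- N
  have hexpC : 0 < Real.exp (κ * C2) := Real.exp_pos _
  have hN1 : 1 ≤ N := by omega
  have hNR : (0 : ℝ) < N := by exact_mod_cast hN1
  have hsq : Real.exp (Real.log N / 2) = Real.sqrt N := by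
    rw [Real.sqrt_eq_rpow, Real.rpow_def_of_pos hNR]; congr 1; ring
  have hLLL : 0 ≤ L * (1 + LL) := by positivity
  -- z ^ (8 r) ≤ √N
  have hA : (z : ℝ) ^ (8 * r) ≤ Real.sqrt N := by
    rw [← hsq, ← Real.exp_log (show (0 : ℝ) < z by linarith), ← Real.exp_nat_mul]
    apply Real.exp_le_exp.2
    push_cast
    rw [← hL]
    have h1 : 8 * (r : ℝ) * L ≤ (16 + 64 * κ + 64 * (κ * C2)) * L * (1 + LL) / 2 := by
      have h2 : 8 * (r : ℝ) ≤ 32 * (κ * LL) + 32 * (κ * C2) + 8 := by linarith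
      have h3 : 8 * (r : ℝ) * L ≤ (32 * (κ * LL) + 32 * (κ * C2) + 8) * L :=
        mul_le_mul_of_nonneg_right h2 (by linarith)
      have h4 : 0 ≤ (κ * C2) * (L * LL) := by positivity
      have h5 : 0 ≤ L * LL := by positivity
      have h6 : 0 ≤ κ * L := by positivity
      nlinarith
    have h6 : (16 + 64 * κ + 64 * (κ * C2)) * L * (1 + LL) ≤
        (18 + 66 * κ + Real.exp (κ * C2) + 64 * (κ * C2)) * L * (1 + LL) := by
      have : 0 ≤ (2 + 2 * κ + Real.exp (κ * C2)) * (L * (1 + LL)) := by positivity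
      nlinarith
    linarith
  -- exp Λ ≤ exp (κ C2) √N
  have hB : Real.exp Λ ≤ Real.exp (κ * C2) * Real.sqrt N := by
    calc Real.exp Λ ≤ Real.exp (κ * LL + κ * C2) := Real.exp_le_exp.2 hΛ1
      _ = Real.exp (κ * C2) * Real.exp (κ * LL) := by rw [← Real.exp_add]; congr 1; ring
      _ ≤ Real.exp (κ * C2) * Real.sqrt N := by
          apply mul_le_mul_of_nonneg_left _ hexpC.le
          rw [← hsq]
          apply Real.exp_le_exp.2
          have h1 : LL ≤ L := by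
            have := Real.log_le_sub_one_of_pos (show 0 < L by linarith)
            linarith
          have h0 : κ * LL ≤ κ * L := mul_le_mul_of_nonneg_left h1 hκ0.le
          have h2 : 66 * κ * (L * 1) ≤ 66 * κ * (L * (1 + LL)) := by
            apply mul_le_mul_of_nonneg_left _ (by positivity)
            apply mul_le_mul_of_nonneg_left _ (by linarith)
            linarith
          have h3 : 0 ≤ (18 + Real.exp (κ * C2) + 64 * (κ * C2)) * (L * (1 + LL)) := by positivity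
          have h4 : 0 ≤ κ * L := by positivity
          nlinarith
  have hC : Real.sqrt N ≤ Real.exp (κ * C2) * (N * Real.exp (-Λ)) := by
    have h1 : Real.sqrt N * Real.exp Λ ≤ Real.exp (κ * C2) * N := by
      calc Real.sqrt N * Real.exp Λ ≤ Real.sqrt N * (Real.exp (κ * C2) * Real.sqrt N) :=
            mul_le_mul_of_nonneg_left hB (Real.sqrt_nonneg _)
        _ = Real.exp (κ * C2) * (Real.sqrt N * Real.sqrt N) := by ring
        _ = Real.exp (κ * C2) * N := by rw [Real.mul_self_sqrt hNR.le]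
    rw [Real.exp_neg, ← mul_assoc, ← div_eq_mul_inv, le_div_iff₀ (Real.exp_pos _)]
    exact h1
  have hz4 : (z : ℝ) ^ (4 * r) ≤ Real.sqrt N :=
    (pow_le_pow_right₀ (by linarith) (by omega)).trans hA
  have hsN : Real.sqrt N ≤ N := by
    have hN1R : (1 : ℝ) ≤ N := by exact_mod_cast hN1
    rw [Real.sqrt_le_left hNR.le]
    nlinarith
  -- Brun
  have hbr := brun (Ω.filter fun i => (a : ℤ) ∣ w i) S
    (fun p i => h p (((w i / a) % ((p ^ 2 : ℕ) : ℤ)).toNat)) η
    (by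
      intro p hp n _
      rcases h01 p hp (((w n / a) % ((p ^ 2 : ℕ) : ℤ)).toNat) with h | h <;> rw [h] <;> norm_num) hη01 r
    (Ω.card / a : ℝ) ((z : ℝ) ^ (4 * r) * (Ω.card / (N : ℝ) ^ 2)) (by positivity) (by positivity)
    (by
      intro T hT hcard
      have hmdpos : ∀ p ∈ T, 0 < (fun p : ℕ => p ^ 2) p := by
        intro p hp
        exact pow_pos (hS p (hT hp)).1.pos 2
      have hcop : (T : Set ℕ).Pairwise fun p p' =>
          Nat.Coprime ((fun p : ℕ => p ^ 2) p) ((fun p : ℕ => p ^ 2) p') := by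
        intro p hp p' hp' hne
        have hc : Nat.Coprime p p' := (Nat.coprime_primes (hS p (hT hp)).1 (hS p' (hT hp')).1).2 hne
        exact hc.pow 2 2
      obtain ⟨Q, hQ⟩ : ∃ Q : ℕ, Q = ∏ p ∈ T, p ^ 2 := ⟨_, rfl⟩
      have hQ1 : 1 ≤ Q := by rw [hQ]; exact Finset.prod_pos hmdpos
      have hQle : (Q : ℝ) ≤ (z : ℝ) ^ (4 * r) := by
        rw [hQ]
        push_cast
        calc ∏ p ∈ T, ((p : ℝ) ^ 2) ≤ ∏ p ∈ T, (z : ℝ) ^ 2 := by
              apply Finset.prod_le_prod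
              · intro p _; positivity
              · intro p hp
                have h2' : (p : ℝ) ≤ z := by exact_mod_cast (hS p (hT hp)).2
                exact pow_le_pow_left₀ (Nat.cast_nonneg _) h2' 2
          _ = (z : ℝ) ^ (2 * T.card) := by rw [Finset.prod_const, pow_mul]
          _ ≤ (z : ℝ) ^ (4 * r) := pow_le_pow_right₀ (by linarith) (by omega)
      have haQ : a * Q ≤ N ^ 2 := by
        have h1 : (Q : ℝ) ≤ N := hQle.trans (hz4.trans hsN)
        have h2 : Q ≤ N := by exact_mod_cast h1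
        rw [pow_two]
        exact Nat.mul_le_mul haN h2
      have hres := count_res hU ha hQ1 haQ (fun n => ∏ p ∈ T, h p n) (fun n =>
        AvgAux.prod_01 T (fun p => h p n) fun p hp => by
          rcases h01 p (hT hp) n with h | h <;> rw [h] <;> norm_num)
      have hsum : (∑ n ∈ range Q, ∏ p ∈ T, h p n) / (Q : ℝ) = ∏ p ∈ T, η p := by
        have h1 := AvgAux.sum_prod T (fun p => p ^ 2) hmdpos hcop h (fun p hp => hper p (hT hp))
        rw [hQ, h1]
        simp only [hηc]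
        rw [Finset.prod_div_distrib]
        push_cast
        rfl
      rw [hsum] at hres
      have hpt : ∀ i ∈ Ω.filter (fun i => (a : ℤ) ∣ w i),
          ∏ p ∈ T, h p (((w i / a) % ((p ^ 2 : ℕ) : ℤ)).toNat) = ∏ p ∈ T, h p (((w i / a) % (Q : ℤ)).toNat) := by
        intro i _
        refine Finset.prod_congr rfl fun p hp => ?_
        have hpQ : (p ^ 2) ∣ Q := by rw [hQ]; exact Finset.dvd_prod_of_mem (fun p : ℕ => p ^ 2) hp
        obtain ⟨u, hu⟩ : ∃ u : ℤ, u = w i / a := ⟨_, rfl⟩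
        rw [← hu]
        have hQ0 : (Q : ℤ) ≠ 0 := by exact_mod_cast (by omega : Q ≠ 0)
        have hu0 : 0 ≤ u % (Q : ℤ) := Int.emod_nonneg u hQ0
        obtain ⟨m, hm⟩ := Int.eq_ofNat_of_zero_le hu0
        have e1 : u % ((p ^ 2 : ℕ) : ℤ) = ((m % p ^ 2 : ℕ) : ℤ) := by
          rw [← Int.emod_emod_of_dvd u (by exact_mod_cast hpQ : ((p ^ 2 : ℕ) : ℤ) ∣ (Q : ℤ)), hm]
          push_cast
          rfl
        rw [e1, hm]
        simp only [Int.toNat_natCast]
        have hper' : Function.Periodic (h p) (p ^ 2) := hper p (hT hp)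
        exact hper'.map_mod_nat m
      show |∑ i ∈ Ω.filter (fun i => (a : ℤ) ∣ w i), ∏ p ∈ T, h p (((w i / a) % ((p ^ 2 : ℕ) : ℤ)).toNat) -
        (Ω.card / a : ℝ) * ∏ p ∈ T, η p| ≤ _
      rw [Finset.sum_congr rfl hpt]
      refine hres.trans ?_
      exact mul_le_mul_of_nonneg_right hQle (by positivity))
  have hD : ((S.card : ℝ) + 1) ^ (2 * r) * ((z : ℝ) ^ (4 * r) * (Ω.card / (N : ℝ) ^ 2)) ≤
      Real.exp (κ * C2) * ((Ω.card / a) * Real.exp (-Λ)) := by
    have hcard : S.card ≤ z := by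
      have hsub : S ⊆ Icc 1 z := by
        intro p hp
        obtain ⟨h1, h2⟩ := hS p hp
        exact mem_Icc.2 ⟨h1.pos, h2⟩
      have := Finset.card_le_card hsub
      simpa using this
    have hcR : (S.card : ℝ) + 1 ≤ (z : ℝ) ^ 2 := by
      have : (S.card : ℝ) ≤ z := by exact_mod_cast hcard
      nlinarith
    calc ((S.card : ℝ) + 1) ^ (2 * r) * ((z : ℝ) ^ (4 * r) * (Ω.card / (N : ℝ) ^ 2))
        ≤ ((z : ℝ) ^ 2) ^ (2 * r) * ((z : ℝ) ^ (4 * r) * (Ω.card / (N : ℝ) ^ 2)) := by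
          apply mul_le_mul_of_nonneg_right _ (by positivity)
          exact pow_le_pow_left₀ (by positivity) hcR _
      _ = (z : ℝ) ^ (8 * r) * (Ω.card / (N : ℝ) ^ 2) := by
          rw [← pow_mul, ← mul_assoc, ← pow_add]
          congr 2
          ring
      _ ≤ (Real.exp (κ * C2) * (N * Real.exp (-Λ))) * (Ω.card / (N : ℝ) ^ 2) :=
          mul_le_mul_of_nonneg_right (hA.trans hC) (by positivity)
      _ = Real.exp (κ * C2) * ((Ω.card / N) * Real.exp (-Λ)) := by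
          field_simp
      _ ≤ _ := by
          apply mul_le_mul_of_nonneg_left _ hexpC.le
          apply mul_le_mul_of_nonneg_right _ (Real.exp_pos _).le
          apply div_le_div_of_nonneg_left hcard0 haR
          exact_mod_cast haN
  have hE : (∑ i ∈ S, η i) ^ (2 * r + 1) / ((2 * r + 1).factorial : ℝ) ≤ Real.exp (-Λ) := by
    apply pow_fact _ _ hΛ0
    push_cast
    linarith
  have hF := prod_exp S η hη01
  have hca : (0 : ℝ) ≤ Ω.card / a := by positivity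
  have hG : ∑ i ∈ Ω.filter (fun i => (a : ℤ) ∣ w i), ∏ p ∈ S, (1 - h p (((w i / a) % ((p ^ 2 : ℕ) : ℤ)).toNat)) ≤
      (Ω.card / a) * (Real.exp (-Λ) + Real.exp (-Λ)) + Real.exp (κ * C2) * ((Ω.card / a) * Real.exp (-Λ)) := by
    refine hbr.trans ?_
    apply add_le_add _ hD
    apply mul_le_mul_of_nonneg_left _ hca
    exact add_le_add hF hE
  refine hG.trans ?_
  have hpos : 0 ≤ (Ω.card / a : ℝ) * Real.exp (-Λ) := by positivity
  have : 0 ≤ (16 + 66 * κ + 64 * (κ * C2)) * ((Ω.card / a : ℝ) * Real.exp (-Λ)) := by positivity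
  nlinarith

end Pool.Agent.Run7.h582.OD
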