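import Pool.Agent.Run7.h582.OD.Od1
import Pool.Agent.Y346.SG.OC

set_option autoImplicit false

/-!
The count of `Pool.Agent.Y346.SG.OC` for families: smallest exact primes given.
-/

namespace Pool.Agent.Run7.h582.OD

open Finset
open Pool.Agent.W114.PQ (Dat Pass Dk)
open Pool.Agent.H951R4.OD (ch PI Ex countI sum_inv_prod d3_smallest d3_ncard d3_ps d3_log
  one_add_log_le)
open Pool.Agent.Y346.SG (AxG S_MN S_BK)
open Pool.Agent.Y346.SG.CA
open scoped Classical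

theorem sift_pt {D : Dat} (hD : AxG D) (ps : Finset ℕ) (hps : ∀ p ∈ ps, p.Prime) (S1 S2 : Finset ℕ)
    (y : ℕ) (hS1 : ∀ r ∈ S1, r.Prime ∧ r ≤ ps.sup id ∧ ¬ r ∣ D.c0 ∧ r ∉ ps)
    (hS2 : ∀ q ∈ S2, q.Prime ∧ y < q ∧ ¬ q ∣ D.c0) (hy : ps.sup id ≤ y) (m : ℕ)
    (hm1 : Pass D ((∏ p ∈ ps, p) * m)) (hm2 : ∀ p ∈ ps, Ex D.c0 ((∏ p ∈ ps, p) * m) p)
    (hm3 : ∀ p : ℕ, Ex D.c0 ((∏ p ∈ ps, p) * m) p → p ≤ ps.sup id → p ∈ ps) :
    ∀ p ∈ S1 ∪ S2, hh D ps (ps.sup id) (∏ p ∈ ps, p) p m = 0 := by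
  set Pr : ℕ := ∏ p ∈ ps, p with hPr
  set P : ℕ := ps.sup id with hP
  have hleP : ∀ p ∈ ps, p ≤ P := fun p hp => Finset.le_sup (f := id) hp
  intro p hp
  rcases mem_union.1 hp with hp | hp
  · obtain ⟨h1, h2, h3, h4⟩ := hS1 p hp
    unfold hh
    rw [if_pos h2, if_neg]
    rintro ⟨h5, h6⟩
    apply h4
    have hcop : Nat.Coprime Pr p := by
      rw [hPr]
      apply Nat.Coprime.prod_left
      intro q hq
      exact (Nat.coprime_primes (hps q hq) h1).2 (fun hh => h4 (hh ▸ hq))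
    refine hm3 p ⟨h1, h3, dvd_mul_of_dvd_right h5 _, ?_⟩ h2
    intro h7
    apply h6
    exact Nat.Coprime.dvd_of_dvd_mul_left (Nat.Coprime.pow_left 2 hcop.symm) h7
  · obtain ⟨h1, h2, h3⟩ := hS2 p hp
    have hPp : P < p := lt_of_le_of_lt hy h2
    have hcop : Nat.Coprime Pr p := by
      rw [hPr]
      apply Nat.Coprime.prod_left
      intro q hq
      refine (Nat.coprime_primes (hps q hq) h1).2 (fun hh => ?_)
      have := hleP q hq
      omega
    have hp2 : p ≠ 2 := fun h => h3 (h ▸ hD.two)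
    unfold hh
    rw [if_neg (by omega), if_neg]
    rintro (⟨⟨r, hr, h4⟩, h5⟩ | ⟨h4, h5, h6, h7⟩)
    · exact hm1.1 r p ((p - 1) / 2) (hm2 r hr) h1 h3 h5
        ((Pool.Agent.H951R4.OD.ch_eq_neg_one_iff r p h1 hp2).1 h4)
    · refine hm1.2 h4 p ⟨h1, h3, dvd_mul_of_dvd_right h6 _, ?_⟩ h5
      intro h8
      apply h7
      exact Nat.Coprime.dvd_of_dvd_mul_left (Nat.Coprime.pow_left 2 hcop.symm) h8

/-- a positive integer divisible by `a`, reduced modulo `p ^ 2` -/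
lemma red {a : ℕ} (ha : 1 ≤ a) {v : ℤ} (hv : 0 < v) (hav : a ∣ v.toNat) {p : ℕ} (f : ℕ → ℝ)
    (hf : ∀ n, f (n + p ^ 2) = f n) :
    (a : ℤ) ∣ v ∧ v.toNat = a * (v / a).toNat ∧ f (((v / a) % ((p ^ 2 : ℕ) : ℤ)).toNat) = f (v / a).toNat := by
  obtain ⟨n, rfl⟩ := Int.eq_ofNat_of_zero_le hv.le
  rw [Int.toNat_natCast] at hav
  obtain ⟨m, rfl⟩ := hav
  have ha0 : (a : ℤ) ≠ 0 := by exact_mod_cast (by omega : a ≠ 0)
  have e1 : (((a * m : ℕ) : ℤ)) / (a : ℤ) = (m : ℤ) := by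
    push_cast
    exact Int.mul_ediv_cancel_left _ ha0
  refine ⟨by exact_mod_cast dvd_mul_right a m, ?_, ?_⟩
  · rw [e1, Int.toNat_natCast, Int.toNat_natCast]
  · rw [e1, Int.toNat_natCast]
    have e2 : ((m : ℤ) % ((p ^ 2 : ℕ) : ℤ)).toNat = m % p ^ 2 := by
      rw [← Int.natCast_mod, Int.toNat_natCast]
    rw [e2]
    have hper : Function.Periodic f (p ^ 2) := hf
    exact hper.map_mod_nat m

theorem siftF {D : Dat} (hD : AxG D) (ps : Finset ℕ) (hps : ∀ p ∈ ps, p.Prime) (S1 S2 : Finset ℕ)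
    (y : ℕ) (hS1 : ∀ r ∈ S1, r.Prime ∧ r ≤ ps.sup id ∧ ¬ r ∣ D.c0 ∧ r ∉ ps)
    (hS2 : ∀ q ∈ S2, q.Prime ∧ y < q ∧ ¬ q ∣ D.c0) (hy : ps.sup id ≤ y) {τ : Type} (Ω : Finset τ) (w : τ → ℤ) :
    ((Ω.filter fun i => 0 < w i ∧ Pass D (w i).toNat ∧ (∀ p ∈ ps, Ex D.c0 (w i).toNat p) ∧
        ∀ p : ℕ, Ex D.c0 (w i).toNat p → p ≤ ps.sup id → p ∈ ps).card : ℝ) ≤
      ∑ i ∈ Ω.filter (fun i => (((∏ p ∈ ps, p : ℕ)) : ℤ) ∣ w i), ∏ p ∈ S1 ∪ S2,
        (1 - hh D ps (ps.sup id) (∏ p ∈ ps, p) p (((w i / ((∏ p ∈ ps, p : ℕ))) % ((p ^ 2 : ℕ) : ℤ)).toNat)) := by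
  set Pr : ℕ := ∏ p ∈ ps, p with hPr
  set P : ℕ := ps.sup id with hP
  have hPr0 : 0 < Pr := Finset.prod_pos fun p hp => (hps p hp).pos
  have hpr : ∀ p ∈ S1 ∪ S2, p.Prime := by
    intro p hp
    rcases mem_union.1 hp with h | h
    · exact (hS1 p h).1
    · exact (hS2 p h).1
  have key : ∀ i, (0 < w i ∧ Pass D (w i).toNat ∧ (∀ p ∈ ps, Ex D.c0 (w i).toNat p) ∧
        ∀ p : ℕ, Ex D.c0 (w i).toNat p → p ≤ P → p ∈ ps) → ((Pr : ℤ) ∣ w i ∧
      ∏ p ∈ S1 ∪ S2, (1 - hh D ps P Pr p (((w i / (Pr : ℤ)) % ((p ^ 2 : ℕ) : ℤ)).toNat)) = 1) := by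
    rintro i ⟨h0, h1, h2, h3⟩
    have hdiv : Pr ∣ (w i).toNat := by
      rw [hPr]
      apply Finset.prod_primes_dvd
      · intro p hp; exact (hps p hp).prime
      · intro p hp; exact (h2 p hp).2.2.1
    refine ⟨(red hPr0 h0 hdiv (p := 1) (fun _ => 0) (fun _ => rfl)).1, ?_⟩
    have e := (red hPr0 h0 hdiv (p := 1) (fun _ => 0) (fun _ => rfl)).2.1
    apply Finset.prod_eq_one
    intro p hp
    rw [(red hPr0 h0 hdiv (p := p) (hh D ps P Pr p) (fun n => hh_per hD ps P Pr p n (hpr p hp))).2.2]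
    rw [e] at h1 h2 h3
    rw [sift_pt hD ps hps S1 S2 y hS1 hS2 hy _ h1 h2 h3 p hp, sub_zero]
  have hsub : (Ω.filter fun i => 0 < w i ∧ Pass D (w i).toNat ∧ (∀ p ∈ ps, Ex D.c0 (w i).toNat p) ∧
        ∀ p : ℕ, Ex D.c0 (w i).toNat p → p ≤ P → p ∈ ps) ⊆ Ω.filter (fun i => (Pr : ℤ) ∣ w i) := by
    intro i hi
    rw [mem_filter] at hi ⊢
    exact ⟨hi.1, (key i hi.2).1⟩
  rw [Finset.card_eq_sum_ones, Nat.cast_sum, Nat.cast_one]
  refine le_trans (Finset.sum_le_sum fun i hi => ?_) (Finset.sum_le_sum_of_subset_of_nonneg hsub fun i _ _ => ?_)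
  · rw [(key i (mem_filter.1 hi).2).2]
  · apply Finset.prod_nonneg
    intro p _
    rcases hh01 D ps P Pr p (((w i / (Pr : ℤ)) % ((p ^ 2 : ℕ) : ℤ)).toNat) with h | h <;> rw [h] <;> norm_num

theorem ca2F (mn : S_MN) (bk : S_BK) (D : Dat) (hD : AxG D) (k : ℕ) (hk : 1 ≤ k)
    (hD0 : 0 < Dk D k) (hD1 : Dk D k ≤ 1) : ∃ C : ℝ, 1 ≤ C ∧
    ∀ z X : ℕ, 3 ≤ z → C * Real.log z * (1 + Real.log (Real.log z)) ≤ Real.log X →
    ∀ (σ : Type) (Ω : Finset σ) (W : σ → ℤ), Uni X Ω W →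
    ∀ ps : Finset ℕ, ps.card = k → (∀ p ∈ ps, p.Prime ∧ p ≤ z) →
      ((Ω.filter fun i => 0 < W i ∧ Pass D (W i).toNat ∧ (∀ p ∈ ps, Ex D.c0 (W i).toNat p) ∧
        ∀ p : ℕ, Ex D.c0 (W i).toNat p → p ≤ ps.sup id → p ∈ ps).card : ℝ) ≤
      C * (Ω.card / ∏ p ∈ ps, (p : ℝ)) * (Real.log z) ^ (-Dk D k) := by
  have hκ := hD.κ1
  obtain ⟨Cs, hCs, hsieve⟩ := svf (2 * D.κ + 1) (by linarith)
  obtain ⟨Cb, hCb, hbad⟩ := bk D hD k
  obtain ⟨Ca, hCa, hsmall⟩ := Pool.Agent.H951R4.OD.D2b_small D.c0 hD.c0_pos k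
  obtain ⟨C3, hC3, h3m⟩ := three_mod_four D.c0 hD.c0_pos
  obtain ⟨Cq, hCq, hsq⟩ := Pool.Agent.H951R4.OD.sum_sq_inv
  set K : ℝ := Real.log (2 * Cb) + 2 * k with hK
  have hkr : (1 : ℝ) ≤ k := by exact_mod_cast hk
  have hlogCb : 0 < Real.log (2 * Cb) := Real.log_pos (by linarith)
  have hK1 : 1 ≤ K := by rw [hK]; linarith
  have hlogK : 0 ≤ Real.log K := Real.log_nonneg hK1
  set δ : ℝ := Dk D k with hδ
  set C2 : ℝ := Cb + C3 + (D.κ + 1) * Cq with hC2
  have hC20 : 0 ≤ C2 := by positivity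
  set C' : ℝ := Ca + C2 + δ * Real.log K with hC'
  have hC'0 : 0 ≤ C' := by positivity
  refine ⟨Cs * Real.exp C' + Cs + k + 1, ?_, ?_⟩
  · have : 0 ≤ Cs * Real.exp C' := by positivity
    have hk0 : (0 : ℝ) ≤ k := Nat.cast_nonneg k
    linarith
  intro z X hw hX σ Ω W hU ps hpk hps
  have hz : 3 ≤ z := hw
  obtain ⟨w, hwdef⟩ : ∃ w : ℕ, w = z := ⟨z, rfl⟩
  have hwz : w ≤ z := hwdef.le
  rw [← hwdef] at hps hw
  set Pr : ℕ := ∏ p ∈ ps, p with hPr
  set P : ℕ := ps.sup id with hP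
  have hz3 : (3 : ℝ) ≤ z := by exact_mod_cast hz
  have hw3 : (3 : ℝ) ≤ w := by exact_mod_cast hw
  have hexp1 : Real.exp 1 < 3 := by
    have := Real.exp_one_lt_d9
    linarith
  have hlz : 1 ≤ Real.log z := by
    rw [Real.le_log_iff_exp_le (by linarith)]; linarith
  have hlw : 1 ≤ Real.log w := by
    rw [Real.le_log_iff_exp_le (by linarith)]; linarith
  have hllz : 0 ≤ Real.log (Real.log z) := Real.log_nonneg hlz
  have hne : ps.Nonempty := by
    rw [← Finset.card_pos]; omega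
  obtain ⟨P0, hP0, hP0'⟩ := Finset.exists_mem_eq_sup ps hne id
  have hPP0 : P = P0 := hP0'
  have hPmem : P ∈ ps := by rw [hPP0]; exact hP0
  have hPprime : P.Prime := (hps P hPmem).1
  have hPw : P ≤ w := (hps P hPmem).2
  have hPz : P ≤ z := hPw.trans hwz
  have hleP : ∀ p ∈ ps, p ≤ P := fun p hp => Finset.le_sup (f := id) hp
  have hPr0 : 0 < Pr := Finset.prod_pos fun p hp => (hps p hp).1.pos
  have hPPr : P ≤ Pr := Nat.le_of_dvd hPr0 (Finset.dvd_prod_of_mem _ hPmem)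
  have hPrP : Pr ≤ P ^ k := by
    have := Finset.prod_le_pow_card ps (fun p => p) P hleP
    rw [hpk] at this
    exact this
  have hPrz : Pr ≤ z ^ k := hPrP.trans (Nat.pow_le_pow_left hPz k)
  have hPrr : (1 : ℝ) ≤ Pr := by exact_mod_cast hPr0
  have hprod : (∏ p ∈ ps, (p : ℝ)) = (Pr : ℝ) := by rw [hPr]; push_cast; rfl
  rw [hprod]
  -- sizes
  have hlogPr : Real.log Pr ≤ k * Real.log z := by
    rw [← Real.log_pow]
    apply Real.log_le_log (by linarith)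
    exact_mod_cast hPrz
  have hCC : (Cs + k + 1) * (Real.log z * (1 + Real.log (Real.log z))) ≤ Real.log X := by
    refine le_trans ?_ hX
    rw [mul_assoc]
    apply mul_le_mul_of_nonneg_right _ (by positivity)
    have : 0 ≤ Cs * Real.exp C' := by positivity
    linarith
  have hL1 : Real.log z ≤ Real.log z * (1 + Real.log (Real.log z)) := by nlinarith
  set LL : ℝ := Real.log z * (1 + Real.log (Real.log z)) with hLL
  have hLL1 : 1 ≤ LL := hlz.trans hL1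
  have hX0 : 0 < Real.log X := by
    have : 0 < (Cs + k + 1) * LL := by positivity
    linarith
  have hXpos : (1 : ℝ) < X := by
    by_contra hcon
    push Not at hcon
    have := Real.log_nonpos (Nat.cast_nonneg X) hcon
    linarith
  have hlog2 : Real.log 2 ≤ Real.log z := Real.log_le_log (by norm_num) (by linarith)
  have hXPr : Real.log (2 * Pr) ≤ Real.log X := by
    rw [Real.log_mul (by norm_num) (by linarith)]
    have : (k : ℝ) * Real.log z ≤ k * LL := mul_le_mul_of_nonneg_left hL1 (by linarith)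
    nlinarith
  have hXPr' : 2 * (Pr : ℝ) ≤ X := (Real.log_le_log_iff (by linarith) (by linarith)).1 hXPr
  have hPrX : Pr ≤ X := by
    have h1 : (Pr : ℝ) ≤ X := by linarith
    exact_mod_cast h1
  have hlogN : Cs * Real.log z * (1 + Real.log (Real.log z)) ≤ Real.log X := by
    rw [mul_assoc]
    have h0 : (0 : ℝ) ≤ k + 1 := by linarith
    have : 0 ≤ (k + 1) * LL := by positivity
    nlinarith
  -- y
  set y : ℕ := ⌈Cb * (Pr : ℝ) ^ 2⌉₊ with hy
  have hy1 : Cb * (Pr : ℝ) ^ 2 ≤ y := Nat.le_ceil _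
  have hy2 : (y : ℝ) < Cb * (Pr : ℝ) ^ 2 + 1 := Nat.ceil_lt_add_one (by positivity)
  have hPy : P ≤ y := by
    have h1 : (P : ℝ) ≤ Pr := by exact_mod_cast hPPr
    have h2 : (P : ℝ) ≤ y := by nlinarith
    exact_mod_cast h2
  have hy3 : 3 ≤ y := by
    have h2 : (3 : ℝ) ≤ y := by nlinarith
    exact_mod_cast h2
  have hyr : (3 : ℝ) ≤ y := by exact_mod_cast hy3
  set P3 : ℝ := ((max P 3 : ℕ) : ℝ) with hP3
  have hP33 : (3 : ℝ) ≤ P3 := by rw [hP3]; exact_mod_cast le_max_right _ _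
  have hP3w : P3 ≤ w := by rw [hP3]; exact_mod_cast max_le hPw hw
  have hlP3 : 1 ≤ Real.log P3 := by
    rw [Real.le_log_iff_exp_le (by linarith)]
    linarith
  have hllP3w : Real.log (Real.log P3) ≤ Real.log (Real.log w) :=
    Real.log_le_log (by linarith) (Real.log_le_log (by linarith) hP3w)
  have hlogy : Real.log y ≤ K * Real.log P3 := by
    have h1 : (y : ℝ) ≤ 2 * Cb * (Pr : ℝ) ^ 2 := by nlinarith
    have h2 : Real.log y ≤ Real.log (2 * Cb * (Pr : ℝ) ^ 2) := Real.log_le_log (by linarith) h1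
    rw [Real.log_mul (by positivity) (by positivity), Real.log_pow] at h2
    have h3 : Real.log Pr ≤ k * Real.log P3 := by
      rw [← Real.log_pow]
      apply Real.log_le_log (by linarith)
      have h4 : (Pr : ℝ) ≤ (P : ℝ) ^ k := by exact_mod_cast hPrP
      refine h4.trans (pow_le_pow_left₀ (Nat.cast_nonneg _) ?_ k)
      rw [hP3]; exact_mod_cast le_max_left _ _
    rw [hK]
    push_cast at h2
    nlinarith
  have hlogy0 : 0 < Real.log y := Real.log_pos (by linarith)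
  have hlly : Real.log (Real.log y) ≤ Real.log K + Real.log (Real.log P3) := by
    rw [← Real.log_mul (by linarith) (by linarith)]
    exact Real.log_le_log hlogy0 hlogy
  have hA0 : 0 ≤ Real.log (Real.log P3) := Real.log_nonneg hlP3
  -- the two sets
  set S1 : Finset ℕ := (PI 0 P).filter (fun r => ¬ r ∣ D.c0 ∧ r ∉ ps) with hS1
  set S2 : Finset ℕ := (PI y z).filter (fun q => ¬ q ∣ D.c0) with hS2
  have hmem1 : ∀ r ∈ S1, r.Prime ∧ r ≤ P ∧ ¬ r ∣ D.c0 ∧ r ∉ ps := by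
    intro r hr
    simp only [hS1, PI, mem_filter, mem_Ioc] at hr
    exact ⟨hr.1.2, hr.1.1.2, hr.2.1, hr.2.2⟩
  have hmem2 : ∀ q ∈ S2, q.Prime ∧ y < q ∧ q ≤ z ∧ ¬ q ∣ D.c0 := by
    intro q hq
    simp only [hS2, PI, mem_filter, mem_Ioc] at hq
    exact ⟨hq.1.2, hq.1.1.1, hq.1.1.2, hq.2⟩
  have hdisj : Disjoint S1 S2 := by
    rw [Finset.disjoint_left]
    intro r h1 h2
    have := (hmem1 r h1).2.1
    have := (hmem2 r h2).2.1
    omega
  have hcop : ∀ q ∈ S2, Nat.Coprime Pr q := by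
    intro q hq
    obtain ⟨h1, h2, -, -⟩ := hmem2 q hq
    rw [hPr]
    apply Nat.Coprime.prod_left
    intro p hp
    refine (Nat.coprime_primes (hps p hp).1 h1).2 (fun hh => ?_)
    have := hleP p hp
    omega
  have hme1 : ∀ r ∈ S1, (∑ n ∈ range (r ^ 2), hh D ps P Pr r n) / (r : ℝ) ^ 2 =
      1 / r - 1 / (r : ℝ) ^ 2 := fun r hr => mean1 D ps (hmem1 r hr).1 (hmem1 r hr).2.1
  have hme2 := fun q (hq : q ∈ S2) => mean2 hD mn ps (P := P) (Pr := Pr) (hmem2 q hq).1 (by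
        have := (hmem2 q hq).2.1
        omega) (hmem2 q hq).2.2.2 (hcop q hq)
  have hs := hsieve z X Pr hz hPr0 hPrX hlogN σ Ω W hU (S1 ∪ S2) (hh D ps P Pr) (by
      intro p hp
      rcases mem_union.1 hp with hp | hp
      · exact ⟨(hmem1 p hp).1, (hmem1 p hp).2.1.trans hPz⟩
      · exact ⟨(hmem2 p hp).1, (hmem2 p hp).2.2.1⟩) (fun p _ n => hh01 D ps P Pr p n) (by
      intro p hp n
      apply hh_per hD
      rcases mem_union.1 hp with hp | hp
      · exact (hmem1 p hp).1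
      · exact (hmem2 p hp).1) (by
      intro p hp
      rcases mem_union.1 hp with hp | hp
      · rw [hme1 p hp]
        have : (1 : ℝ) / p ≤ (2 * D.κ + 1) / p := by
          apply div_le_div_of_nonneg_right (by linarith) (Nat.cast_nonneg p)
        have : (0 : ℝ) ≤ 1 / (p : ℝ) ^ 2 := by positivity
        linarith
      · exact (hme2 p hp).2)
  have hsift := siftF hD ps (fun p hp => (hps p hp).1) S1 S2 y hmem1
    (fun q hq => ⟨(hmem2 q hq).1, (hmem2 q hq).2.1, (hmem2 q hq).2.2.2⟩) hPy Ω W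
  refine hsift.trans (hs.trans ?_)
  rw [Finset.sum_union hdisj, Finset.sum_congr rfl hme1]
  set Sg2 : ℝ := ∑ q ∈ S2, (∑ n ∈ range (q ^ 2), hh D ps P Pr q n) / (q : ℝ) ^ 2 with hSg2
  have h1 := hsmall ps hpk P hPprime.two_le
  -- the lower bound of the sum of the means
  have hlow : δ * Real.log (Real.log z) - C' ≤
      ∑ r ∈ S1, (1 / (r : ℝ) - 1 / (r : ℝ) ^ 2) + Sg2 := by
    have hmw : 0 ≤ (1 - δ) * Real.log (Real.log P3) :=
      mul_nonneg (by linarith) hA0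
    rcases Nat.lt_or_ge z y with hzy | hyz
    · have h2 : S2 = ∅ := by
        rw [Finset.eq_empty_iff_forall_notMem]
        intro q hq
        have := (hmem2 q hq).2
        omega
      have h2' : Sg2 = 0 := by rw [hSg2, h2, Finset.sum_empty]
      rw [h2', add_zero]
      have h3 : Real.log (Real.log z) ≤ Real.log (Real.log y) := by
        apply Real.log_le_log (by linarith)
        apply Real.log_le_log (by linarith)
        exact_mod_cast hzy.le
      have h4 : δ * Real.log (Real.log z) ≤ δ * (Real.log K + Real.log (Real.log P3)) :=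
        mul_le_mul_of_nonneg_left (h3.trans hlly) (by linarith)
      rw [hC']
      linarith
    · have h2 := hbad ps hpk (fun p hp => (hps p hp).1) y z (by rw [hprod]; exact hy1) hyz
      have h3 := h3m y z (by omega) hyz
      have h4 := hsq S2
      have hsum : ∑ q ∈ S2, ((if (∃ r ∈ ps, ch (r : ℤ) q = -1) then D.ρ q / q else 0) +
          (if D.β = 1 ∧ q % 4 = 3 then 1 / (q : ℝ) else 0) - (D.κ + 1) / (q : ℝ) ^ 2) ≤ Sg2 :=
        Finset.sum_le_sum fun q hq => (hme2 q hq).1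
      rw [Finset.sum_sub_distrib, Finset.sum_add_distrib] at hsum
      have e1 : ∑ q ∈ S2, (if (∃ r ∈ ps, ch (r : ℤ) q = -1) then D.ρ q / q else 0) =
          ∑ q ∈ (PI y z).filter (fun q => ¬ q ∣ D.c0 ∧ ∃ p ∈ ps, ch (p : ℤ) q = -1),
            D.ρ q / q := by
        rw [← Finset.sum_filter, hS2, Finset.filter_filter]
      have e2 : D.β / 2 * Real.log (Real.log z / Real.log y) - C3 ≤
          ∑ q ∈ S2, (if D.β = 1 ∧ q % 4 = 3 then 1 / (q : ℝ) else 0) := by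
        rcases hD.β01 with hβ | hβ
        · have : ∀ q ∈ S2, (if D.β = 1 ∧ q % 4 = 3 then 1 / (q : ℝ) else 0) = 0 := by
            intro q _
            rw [if_neg]
            rintro ⟨h, -⟩
            rw [hβ] at h
            norm_num at h
          rw [Finset.sum_congr rfl this, Finset.sum_const_zero, hβ]
          linarith
        · have : ∀ q ∈ S2, (if D.β = 1 ∧ q % 4 = 3 then 1 / (q : ℝ) else 0) =
              (if q % 4 = 3 then 1 / (q : ℝ) else 0) := by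
            intro q _
            simp only [hβ, true_and]
          rw [Finset.sum_congr rfl this, hβ]
          linarith
      have e3 : ∑ q ∈ S2, (D.κ + 1) / (q : ℝ) ^ 2 ≤ (D.κ + 1) * Cq := by
        have : ∀ q ∈ S2, (D.κ + 1) / (q : ℝ) ^ 2 = (D.κ + 1) * (1 / (q : ℝ) ^ 2) := by
          intro q _; ring
        rw [Finset.sum_congr rfl this, ← Finset.mul_sum]
        exact mul_le_mul_of_nonneg_left h4 (by linarith)
      rw [← e1] at h2
      have e4 : δ = (D.τ - D.κ / 2 ^ k) + D.β / 2 := by rw [hδ]; unfold Dk; ring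
      have e5 : δ * Real.log (Real.log z / Real.log y) - C2 ≤ Sg2 := by
        rw [e4, hC2]
        linarith
      rw [Real.log_div (by linarith) (by linarith)] at e5
      have h5 : δ * Real.log (Real.log y) ≤ δ * (Real.log K + Real.log (Real.log P3)) :=
        mul_le_mul_of_nonneg_left hlly (by linarith)
      rw [hC']
      linarith
  have hexpo : Real.exp (-(∑ r ∈ S1, (1 / (r : ℝ) - 1 / (r : ℝ) ^ 2) + Sg2)) ≤
      Real.exp C' * (Real.log z) ^ (-δ) := by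
    rw [Real.rpow_def_of_pos (by linarith), ← Real.exp_add]
    apply Real.exp_le_exp.2
    linarith
  have hrp : 0 ≤ (Real.log z) ^ (-δ) := Real.rpow_nonneg (by linarith) _
  have hXP0 : (0 : ℝ) ≤ Ω.card / Pr := by positivity
  calc Cs * (Ω.card / Pr : ℝ) * Real.exp (-(∑ r ∈ S1, (1 / (r : ℝ) - 1 / (r : ℝ) ^ 2) + Sg2))
      ≤ Cs * (Ω.card / Pr) * (Real.exp C' * (Real.log z) ^ (-δ)) := by
        gcongr
    _ = (Cs * Real.exp C') * (Ω.card / Pr) * (Real.log z) ^ (-δ) := by ring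
    _ ≤ (Cs * Real.exp C' + Cs + k + 1) * (Ω.card / Pr) * (Real.log z) ^ (-δ) := by
        apply mul_le_mul_of_nonneg_right _ hrp
        apply mul_le_mul_of_nonneg_right _ hXP0
        linarith

end Pool.Agent.Run7.h582.OD
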