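import Pool.Agent.Run7.h582.OD.Od2

set_option autoImplicit false

/-!
The order count `#Ω (log N) ^ (ε - 1)` for families which are uniformly distributed modulo all moduli up to `N ^ 2`.
-/

namespace Pool.Agent.Run7.h582.OD

open Finset
open Pool.Agent.W114.PQ (Dat Pass Dk)
open Pool.Agent.H951R4.OD (ch PI Ex sum_inv_prod d3_smallest d3_ncard d3_ps d3_log
  one_add_log_le mert_le sum_sq_inv)
open Pool.Agent.Y346.SG (AxG S_MN S_BK)
open scoped Classical

theorem count_leF {c0 z : ℕ} {ps : Finset ℕ} (hps : ∀ p ∈ ps, p.Prime ∧ p ≤ z) {τ : Type} (Ω : Finset τ)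
    (w : τ → ℤ) :
    ((Ω.filter fun i => 0 < w i ∧ (∀ p ∈ ps, Ex c0 (w i).toNat p) ∧
      ∀ p : ℕ, p ≤ z → Ex c0 (w i).toNat p → p ∈ ps).card : ℝ) ≤
      ∑ i ∈ Ω.filter (fun i => (((∏ p ∈ ps, p : ℕ)) : ℤ) ∣ w i), ∏ r ∈ Pool.Agent.H951R4.OD.D2a.SS c0 ps z,
        (1 - Pool.Agent.H951R4.OD.D2a.hh r (((w i / ((∏ p ∈ ps, p : ℕ))) % ((r ^ 2 : ℕ) : ℤ)).toNat)) := by
  set Pr := ∏ p ∈ ps, p with hPr
  have hPr0 : 0 < Pr := Finset.prod_pos fun p hp => (hps p hp).1.pos
  have key : ∀ i, (0 < w i ∧ (∀ p ∈ ps, Ex c0 (w i).toNat p) ∧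
      ∀ p : ℕ, p ≤ z → Ex c0 (w i).toNat p → p ∈ ps) → ((Pr : ℤ) ∣ w i ∧
      ∏ r ∈ Pool.Agent.H951R4.OD.D2a.SS c0 ps z,
        (1 - Pool.Agent.H951R4.OD.D2a.hh r (((w i / (Pr : ℤ)) % ((r ^ 2 : ℕ) : ℤ)).toNat)) = 1) := by
    rintro i ⟨h0, h2, h3⟩
    have hdiv : Pr ∣ (w i).toNat := by
      rw [hPr]
      apply Finset.prod_primes_dvd
      · intro p hp; exact (hps p hp).1.prime
      · intro p hp; exact (h2 p hp).2.2.1
    refine ⟨(red hPr0 h0 hdiv (p := 1) (fun _ => 0) (fun _ => rfl)).1, ?_⟩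
    have e := (red hPr0 h0 hdiv (p := 1) (fun _ => 0) (fun _ => rfl)).2.1
    apply Finset.prod_eq_one
    intro r hr
    rw [(red hPr0 h0 hdiv (p := r) (Pool.Agent.H951R4.OD.D2a.hh r)
      (fun n => Pool.Agent.H951R4.OD.D2a.hh_per r n)).2.2]
    rw [e] at h3
    rw [Pool.Agent.H951R4.OD.D2a.mem_SS] at hr
    obtain ⟨⟨r1, r2⟩, r3, r4⟩ := hr
    have hcop : Nat.Coprime r Pr := by
      rw [hPr]
      refine Nat.Coprime.prod_right fun p hp => ?_
      rw [Nat.coprime_primes r1 (hps p hp).1]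
      rintro rfl
      exact r4 hp
    have hz : Pool.Agent.H951R4.OD.D2a.hh r (w i / (Pr : ℤ)).toNat = 0 := by
      unfold Pool.Agent.H951R4.OD.D2a.hh
      rw [if_neg]
      rintro ⟨d1, d2⟩
      refine r4 (h3 r r2 ⟨r1, r3, dvd_mul_of_dvd_right d1 _, ?_⟩)
      intro d3
      exact d2 ((Nat.Coprime.pow_left 2 hcop).dvd_of_dvd_mul_left d3)
    rw [hz, sub_zero]
  have hsub : (Ω.filter fun i => 0 < w i ∧ (∀ p ∈ ps, Ex c0 (w i).toNat p) ∧
      ∀ p : ℕ, p ≤ z → Ex c0 (w i).toNat p → p ∈ ps) ⊆ Ω.filter (fun i => (Pr : ℤ) ∣ w i) := by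
    intro i hi
    rw [mem_filter] at hi ⊢
    exact ⟨hi.1, (key i hi.2).1⟩
  rw [Finset.card_eq_sum_ones, Nat.cast_sum, Nat.cast_one]
  refine le_trans (Finset.sum_le_sum fun i hi => ?_) (Finset.sum_le_sum_of_subset_of_nonneg hsub fun i _ _ => ?_)
  · rw [(key i (mem_filter.1 hi).2).2]
  · apply Finset.prod_nonneg
    intro p _
    rcases Pool.Agent.H951R4.OD.D2a.hh_01 p (((w i / (Pr : ℤ)) % ((p ^ 2 : ℕ) : ℤ)).toNat) with h | h <;>
      rw [h] <;> norm_num

theorem countIF (c0 : ℕ) (hc0 : 0 < c0) (k : ℕ) : ∃ C : ℝ, 1 ≤ C ∧ ∀ z X : ℕ, 3 ≤ z →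
    C * Real.log z * (1 + Real.log (Real.log z)) ≤ Real.log X →
    ∀ (σ : Type) (Ω : Finset σ) (W : σ → ℤ), Uni X Ω W →
    ∀ ps : Finset ℕ, ps.card ≤ k → (∀ p ∈ ps, p.Prime ∧ p ≤ z) →
      ((Ω.filter fun i => 0 < W i ∧ (∀ p ∈ ps, Ex c0 (W i).toNat p) ∧
        ∀ p : ℕ, p ≤ z → Ex c0 (W i).toNat p → p ∈ ps).card : ℝ) ≤
      C * (Ω.card / ∏ p ∈ ps, (p : ℝ)) / Real.log z := by
  obtain ⟨CD, hCD1, hsieve⟩ := svf 1 le_rfl
  obtain ⟨CM, hCM0, hCM⟩ := mert_le
  obtain ⟨CS, hCS0, hCS⟩ := sum_sq_inv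
  set K : ℝ := CM + CS + c0 + k with hK
  have hCE : 0 < CD * Real.exp K := by positivity
  refine ⟨CD * Real.exp K + CD + k + 1, by linarith [(Nat.cast_nonneg k : (0 : ℝ) ≤ k)], ?_⟩
  intro z X hz hX σ Ω W hU ps hpsk hps
  have hk0 : (0 : ℝ) ≤ k := Nat.cast_nonneg k
  have hlz : 1 ≤ Real.log z := by
    have h3 : (1 : ℝ) ≤ Real.log 3 := by
      rw [Real.le_log_iff_exp_le (by norm_num)]
      linarith [Real.exp_one_lt_d9]
    exact h3.trans (Real.log_le_log (by norm_num) (by exact_mod_cast hz))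
  have hllz : 0 ≤ Real.log (Real.log z) := Real.log_nonneg hlz
  set L := Real.log z with hL
  have hz0 : (0 : ℝ) < z := by
    have : 0 < z := by omega
    exact_mod_cast this
  set Pr := ∏ p ∈ ps, p with hPr
  have hPr0 : 0 < Pr := Finset.prod_pos fun p hp => (hps p hp).1.pos
  have hPrc : (∏ p ∈ ps, (p : ℝ)) = (Pr : ℝ) := by rw [hPr]; push_cast; rfl
  rw [hPrc]
  have hPrR : (0 : ℝ) < Pr := by exact_mod_cast hPr0
  have hPrle : (Pr : ℝ) ≤ (z : ℝ) ^ k := by
    have h1 : Pr ≤ z ^ ps.card := Finset.prod_le_pow_card ps _ z fun p hp => (hps p hp).2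
    have h2 : Pr ≤ z ^ k := h1.trans (Nat.pow_le_pow_right (by omega) hpsk)
    exact_mod_cast h2
  -- lower bound for `X`
  have hLL : L ≤ L * (1 + Real.log L) := by nlinarith
  have hX1 : (CD + k + 1) * (L * (1 + Real.log L)) ≤ Real.log X := by
    refine le_trans ?_ hX
    have : 0 ≤ L * (1 + Real.log L) := by positivity
    nlinarith
  have hX0 : (0 : ℝ) < X := by
    rcases Nat.eq_zero_or_pos X with h | h
    · rw [h] at hX1
      simp only [Nat.cast_zero, Real.log_zero] at hX1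
      exfalso
      have : 0 < (CD + k + 1) * (L * (1 + Real.log L)) := by positivity
      linarith
    · exact_mod_cast h
  have hXz : (z : ℝ) ^ k ≤ X := by
    rw [← Real.log_le_log_iff (by positivity) hX0, Real.log_pow]
    nlinarith
  have hPrX : Pr ≤ X := by exact_mod_cast hPrle.trans hXz
  have hlogN : CD * L * (1 + Real.log L) ≤ Real.log X := by
    rw [mul_assoc]
    have : 0 ≤ (k + 1) * (L * (1 + Real.log L)) := by positivity
    nlinarith
  have hmean : ∀ p ∈ Pool.Agent.H951R4.OD.D2a.SS c0 ps z,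
      (∑ n ∈ range (p ^ 2), Pool.Agent.H951R4.OD.D2a.hh p n) / (p : ℝ) ^ 2 = 1 / (p : ℝ) - 1 / (p : ℝ) ^ 2 := by
    intro p hp
    have h1 := Pool.Agent.H951R4.OD.D2a.mean_eq p (Pool.Agent.H951R4.OD.D2a.mem_SS.1 hp).1.1.pos
    push_cast at h1
    exact h1
  have hmain := hsieve z X Pr hz hPr0 hPrX hlogN σ Ω W hU (Pool.Agent.H951R4.OD.D2a.SS c0 ps z)
    Pool.Agent.H951R4.OD.D2a.hh
    (fun p hp => ⟨(Pool.Agent.H951R4.OD.D2a.mem_SS.1 hp).1.1, (Pool.Agent.H951R4.OD.D2a.mem_SS.1 hp).1.2⟩)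
    (fun p _ n => Pool.Agent.H951R4.OD.D2a.hh_01 p n)
    (fun p _ n => Pool.Agent.H951R4.OD.D2a.hh_per p n) (by
      intro p hp
      rw [hmean p hp]
      have h1 : (0 : ℝ) ≤ 1 / (p : ℝ) ^ 2 := by positivity
      linarith)
  rw [sum_congr rfl hmean] at hmain
  have hlow := Pool.Agent.H951R4.OD.D2a.mean_lower hCM hCS hc0 hpsk hz
  have hexp : Real.exp (-∑ r ∈ Pool.Agent.H951R4.OD.D2a.SS c0 ps z, (1 / (r : ℝ) - 1 / (r : ℝ) ^ 2)) ≤
      Real.exp K / L := by
    calc Real.exp (-∑ r ∈ Pool.Agent.H951R4.OD.D2a.SS c0 ps z, (1 / (r : ℝ) - 1 / (r : ℝ) ^ 2))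
        ≤ Real.exp (K - Real.log L) := Real.exp_le_exp.2 (by rw [hL, hK]; linarith)
      _ = Real.exp K / L := by
        rw [Real.exp_sub, Real.exp_log (by linarith)]
  have hcl := count_leF (c0 := c0) hps Ω W
  rw [← hPr] at hcl
  refine (hcl.trans hmain).trans ?_
  calc CD * (Ω.card / Pr) * Real.exp (-∑ r ∈ Pool.Agent.H951R4.OD.D2a.SS c0 ps z, (1 / (r : ℝ) - 1 / (r : ℝ) ^ 2))
      ≤ CD * (Ω.card / Pr) * (Real.exp K / L) := by gcongr
    _ = (CD * Real.exp K) * (Ω.card / Pr) / L := by ring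
    _ ≤ (CD * Real.exp K + CD + k + 1) * (Ω.card / Pr) / L := by
        gcongr
        linarith

/-- the covering -/
theorem coverF (P : ℕ → Prop) (c0 : ℕ) (k z : ℕ) {σ : Type} (Ω : Finset σ) (W : σ → ℤ) :
    Ω.filter (fun i => 0 < W i ∧ P (W i).toNat) ⊆
      (((range k).biUnion (fun j => (PI 0 z).powersetCard j)).biUnion (fun ps =>
        Ω.filter (fun i => 0 < W i ∧ (∀ p ∈ ps, Ex c0 (W i).toNat p) ∧
          ∀ p : ℕ, p ≤ z → Ex c0 (W i).toNat p → p ∈ ps))) ∪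
      (((PI 0 z).powersetCard k).biUnion (fun ps =>
        Ω.filter (fun i => 0 < W i ∧ P (W i).toNat ∧ (∀ p ∈ ps, Ex c0 (W i).toNat p) ∧
          ∀ p : ℕ, Ex c0 (W i).toNat p → p ≤ ps.sup id → p ∈ ps))) := by
  intro i hi
  rw [Finset.mem_filter] at hi
  obtain ⟨hn1, hn0, hn2⟩ := hi
  obtain ⟨n, hn⟩ : ∃ n : ℕ, n = (W i).toNat := ⟨_, rfl⟩
  rw [← hn] at hn2
  set T := (PI 0 z).filter (fun p => Ex c0 n p) with hT
  have hTm : ∀ p, p ≤ z → Ex c0 n p → p ∈ T := by
    intro p hp he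
    rw [hT, Finset.mem_filter]
    refine ⟨?_, he⟩
    unfold PI
    rw [Finset.mem_filter, Finset.mem_Ioc]
    exact ⟨⟨he.1.pos, hp⟩, he.1⟩
  have hTe : ∀ p ∈ T, Ex c0 n p := fun p hp => (Finset.mem_filter.1 hp).2
  have hTs : T ⊆ PI 0 z := Finset.filter_subset _ _
  rw [Finset.mem_union]
  by_cases hk : T.card < k
  · left
    rw [Finset.mem_biUnion]
    refine ⟨T, ?_, ?_⟩
    · rw [Finset.mem_biUnion]
      exact ⟨T.card, Finset.mem_range.2 hk, Finset.mem_powersetCard.2 ⟨hTs, rfl⟩⟩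
    · rw [Finset.mem_filter, ← hn]
      exact ⟨hn1, hn0, hTe, hTm⟩
  · right
    push Not at hk
    have h0 : 0 ∉ T := fun h => Nat.not_prime_zero (hTe 0 h).1
    obtain ⟨ps, hps, hcard, hdown⟩ := d3_smallest T h0 k hk
    rw [Finset.mem_biUnion]
    refine ⟨ps, Finset.mem_powersetCard.2 ⟨hps.trans hTs, hcard⟩, ?_⟩
    rw [Finset.mem_filter, ← hn]
    refine ⟨hn1, hn0, hn2, fun p hp => hTe p (hps hp), fun p he hle => ?_⟩
    apply hdown p _ hle
    apply hTm p _ he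
    refine hle.trans (Finset.sup_le fun q hq => ?_)
    have := hTs (hps hq)
    unfold PI at this
    rw [Finset.mem_filter, Finset.mem_Ioc] at this
    exact this.1.2

theorem combineF (mn : S_MN) (bk : S_BK) (D : Dat) (hD : AxG D) (k : ℕ) (hk : 1 ≤ k)
    (hD0 : 0 < Dk D k) (hD1 : Dk D k ≤ 1) :
    ∃ C : ℝ, 1 ≤ C ∧ ∀ z X : ℕ, 3 ≤ z →
    C * Real.log z * (1 + Real.log (Real.log z)) ≤ Real.log X →
    ∀ (σ : Type) (Ω : Finset σ) (U : σ → ℤ), Uni X Ω U →
      ((Ω.filter fun i => 0 < U i ∧ Pass D (U i).toNat).card : ℝ) ≤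
      C * Ω.card * (1 + Real.log (Real.log z)) ^ k * (Real.log z) ^ (-Dk D k) := by
  obtain ⟨C1, hC1, h1⟩ := countIF D.c0 hD.c0_pos k
  obtain ⟨C2, hC2, h2⟩ := ca2F mn bk D hD k hk hD0 hD1
  choose D' hD'1 hD' using sum_inv_prod
  have hsum : 0 ≤ ∑ j ∈ range k, D' j := sum_nonneg (fun j _ => by linarith [hD'1 j])
  refine ⟨C1 + C2 + C1 * (∑ j ∈ range k, D' j) + C2 * D' k, ?_, fun z X hz hX σ Ω U hU => ?_⟩
  · have : 0 ≤ C1 * (∑ j ∈ range k, D' j) := mul_nonneg (by linarith) hsum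
    have : 0 ≤ C2 * D' k := mul_nonneg (by linarith) (by linarith [hD'1 k])
    linarith
  · obtain ⟨hlog, hll⟩ := d3_log hz
    have hp1 : 0 ≤ C1 * (∑ j ∈ range k, D' j) := mul_nonneg (by linarith) hsum
    have hp2 : 0 ≤ C2 * D' k := mul_nonneg (by linarith) (by linarith [hD'1 k])
    have hA : 0 ≤ Real.log z * (1 + Real.log (Real.log z)) := by positivity
    have hX1 : C1 * Real.log z * (1 + Real.log (Real.log z)) ≤ Real.log X := by
      refine le_trans ?_ hX
      rw [mul_assoc, mul_assoc]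
      exact mul_le_mul_of_nonneg_right (by linarith) hA
    have hX2 : C2 * Real.log z * (1 + Real.log (Real.log z)) ≤ Real.log X := by
      refine le_trans ?_ hX
      rw [mul_assoc, mul_assoc]
      exact mul_le_mul_of_nonneg_right (by linarith) hA
    set LL : ℝ := 1 + Real.log (Real.log z) with hLL
    set W : ℝ := (Real.log z) ^ (-Dk D k) with hW
    have hLL1 : 1 ≤ LL := by linarith
    have hW0 : 0 ≤ W := Real.rpow_nonneg (by linarith) _
    have hW1 : 1 / Real.log z ≤ W := by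
      rw [hW, one_div, ← Real.rpow_neg_one]
      apply Real.rpow_le_rpow_of_exponent_le hlog
      linarith
    obtain ⟨Y, hY⟩ : ∃ Y : ℝ, Y = Ω.card := ⟨_, rfl⟩
    rw [← hY]
    have hXn : (0 : ℝ) ≤ Y := by rw [hY]; exact Nat.cast_nonneg _
    have hcov := Finset.card_le_card (coverF (Pass D) D.c0 k z Ω U)
    have hcov2 := (hcov.trans (Finset.card_union_le _ _)).trans
      (Nat.add_le_add Finset.card_biUnion_le Finset.card_biUnion_le)
    have hcov3 : ((Ω.filter fun i => 0 < U i ∧ Pass D (U i).toNat).card : ℝ) ≤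
        ∑ ps ∈ (range k).biUnion (fun j => (PI 0 z).powersetCard j),
          ((Ω.filter (fun i => 0 < U i ∧ (∀ p ∈ ps, Ex D.c0 (U i).toNat p) ∧
            ∀ p : ℕ, p ≤ z → Ex D.c0 (U i).toNat p → p ∈ ps)).card : ℝ) +
        ∑ ps ∈ (PI 0 z).powersetCard k,
          ((Ω.filter (fun i => 0 < U i ∧ Pass D (U i).toNat ∧ (∀ p ∈ ps, Ex D.c0 (U i).toNat p) ∧
            ∀ p : ℕ, Ex D.c0 (U i).toNat p → p ≤ ps.sup id → p ∈ ps)).card : ℝ) := by
      exact_mod_cast hcov2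
    refine hcov3.trans ?_
    -- the first sum
    have hI : ∀ j ∈ range k, ∑ ps ∈ (PI 0 z).powersetCard j,
        ((Ω.filter (fun i => 0 < U i ∧ (∀ p ∈ ps, Ex D.c0 (U i).toNat p) ∧
            ∀ p : ℕ, p ≤ z → Ex D.c0 (U i).toNat p → p ∈ ps)).card : ℝ) ≤ D' j * (C1 * Y * LL ^ k * W) := by
      intro j hj
      rw [Finset.mem_range] at hj
      have h3 : ∀ ps ∈ (PI 0 z).powersetCard j,
          ((Ω.filter (fun i => 0 < U i ∧ (∀ p ∈ ps, Ex D.c0 (U i).toNat p) ∧
            ∀ p : ℕ, p ≤ z → Ex D.c0 (U i).toNat p → p ∈ ps)).card : ℝ) ≤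
          (C1 * Y * W) * (1 / ∏ p ∈ ps, (p : ℝ)) := by
        intro ps hps
        obtain ⟨hc, hpp⟩ := d3_ps hps
        have h4 := h1 z X hz hX1 σ Ω U hU ps (by omega) hpp
        rw [← hY] at h4
        refine h4.trans ?_
        have hpr : 0 ≤ 1 / ∏ p ∈ ps, (p : ℝ) := by positivity
        have h5 : C1 * (Y / ∏ p ∈ ps, (p : ℝ)) / Real.log z =
            (C1 * Y * (1 / ∏ p ∈ ps, (p : ℝ))) * (1 / Real.log z) := by ring
        rw [h5]
        have h6 := mul_le_mul_of_nonneg_left hW1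
          (show 0 ≤ C1 * Y * (1 / ∏ p ∈ ps, (p : ℝ)) by positivity)
        linarith
      have h4 := Finset.sum_le_sum h3
      rw [← Finset.mul_sum] at h4
      have h5 := mul_le_mul_of_nonneg_left (hD' j z hz) (show 0 ≤ C1 * Y * W by positivity)
      have h6 : LL ^ j ≤ LL ^ k := pow_le_pow_right₀ hLL1 hj.le
      have h7 := mul_le_mul_of_nonneg_left h6
        (show 0 ≤ C1 * Y * W * D' j from mul_nonneg (by positivity) (by linarith [hD'1 j]))
      calc _ ≤ _ := h4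
        _ ≤ C1 * Y * W * (D' j * LL ^ j) := h5
        _ = C1 * Y * W * D' j * LL ^ j := by ring
        _ ≤ C1 * Y * W * D' j * LL ^ k := h7
        _ = D' j * (C1 * Y * LL ^ k * W) := by ring
    have hI2 : ∑ ps ∈ (range k).biUnion (fun j => (PI 0 z).powersetCard j),
        ((Ω.filter (fun i => 0 < U i ∧ (∀ p ∈ ps, Ex D.c0 (U i).toNat p) ∧
            ∀ p : ℕ, p ≤ z → Ex D.c0 (U i).toNat p → p ∈ ps)).card : ℝ) ≤
        (∑ j ∈ range k, D' j) * (C1 * Y * LL ^ k * W) := by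
      rw [Finset.sum_biUnion]
      · rw [Finset.sum_mul]
        exact Finset.sum_le_sum hI
      · intro i _ j _ hij
        rw [Function.onFun, Finset.disjoint_left]
        intro ps h3 h4
        exact hij ((d3_ps h3).1.symm.trans (d3_ps h4).1)
    -- the second sum
    have hII : ∑ ps ∈ (PI 0 z).powersetCard k,
        ((Ω.filter (fun i => 0 < U i ∧ Pass D (U i).toNat ∧ (∀ p ∈ ps, Ex D.c0 (U i).toNat p) ∧
            ∀ p : ℕ, Ex D.c0 (U i).toNat p → p ≤ ps.sup id → p ∈ ps)).card : ℝ) ≤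
        D' k * (C2 * Y * LL ^ k * W) := by
      have h3 : ∀ ps ∈ (PI 0 z).powersetCard k,
          ((Ω.filter (fun i => 0 < U i ∧ Pass D (U i).toNat ∧ (∀ p ∈ ps, Ex D.c0 (U i).toNat p) ∧
            ∀ p : ℕ, Ex D.c0 (U i).toNat p → p ≤ ps.sup id → p ∈ ps)).card : ℝ) ≤
          (C2 * Y * W) * (1 / ∏ p ∈ ps, (p : ℝ)) := by
        intro ps hps
        obtain ⟨hc, hpp⟩ := d3_ps hps
        have h4 := h2 z X hz hX2 σ Ω U hU ps hc hpp
        rw [← hY] at h4
        refine h4.trans (le_of_eq ?_)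
        ring
      have h4 := Finset.sum_le_sum h3
      rw [← Finset.mul_sum] at h4
      have h5 := mul_le_mul_of_nonneg_left (hD' k z hz) (show 0 ≤ C2 * Y * W by positivity)
      calc _ ≤ _ := h4
        _ ≤ C2 * Y * W * (D' k * LL ^ k) := h5
        _ = D' k * (C2 * Y * LL ^ k * W) := by ring
    have hpos1 : 0 ≤ C1 * (Y * LL ^ k * W) := by positivity
    have hpos2 : 0 ≤ C2 * (Y * LL ^ k * W) := by positivity
    calc _ ≤ (∑ j ∈ range k, D' j) * (C1 * Y * LL ^ k * W) + D' k * (C2 * Y * LL ^ k * W) :=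
          add_le_add hI2 hII
      _ ≤ C1 * (Y * LL ^ k * W) + C2 * (Y * LL ^ k * W) +
          ((∑ j ∈ range k, D' j) * (C1 * Y * LL ^ k * W) + D' k * (C2 * Y * LL ^ k * W)) := by
        linarith
      _ = (C1 + C2 + C1 * (∑ j ∈ range k, D' j) + C2 * D' k) * Y * LL ^ k * W := by ring

theorem ocF (mn : S_MN) (bk : S_BK) (D : Dat) (hD : AxG D) (hτ : D.τ + D.β / 2 = 1)
    (ε : ℝ) (hε : 0 < ε) :
    ∃ C : ℝ, 0 < C ∧ ∀ X : ℕ, 3 ≤ X → ∀ (σ : Type) (Ω : Finset σ) (U : σ → ℤ), Uni X Ω U →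
      ((Ω.filter fun i => 0 < U i ∧ Pass D (U i).toNat).card : ℝ) ≤
        C * Ω.card * (Real.log X) ^ (ε - 1) := by
  obtain ⟨k, hk, hD0, hD1, hkε⟩ := Pool.Agent.Y346.SG.OC.exists_kk D hD hτ (ε / 2) (by linarith)
  obtain ⟨C1, hC1, H⟩ := combineF mn bk D hD k hk hD0 hD1
  set a : ℝ := ε / (2 * (k + 1)) with ha
  have ha0 : 0 < a := by positivity
  set C2 : ℝ := 2 * C1 ^ 2 * (1 + 1 / a) ^ (k + 1) with hC2
  have hC20 : 0 < C2 := by positivity
  refine ⟨36 * C1 ^ 2 + C2 + 1, by positivity, fun X hX σ Ω U hU => ?_⟩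
  have hX3 : (3 : ℝ) ≤ X := by exact_mod_cast hX
  have hX0 : (0 : ℝ) < X := by linarith
  set L := Real.log X with hL
  have hL1 : 1 ≤ L := by
    rw [hL, Real.le_log_iff_exp_le hX0]
    have := Real.exp_one_lt_d9
    linarith
  have hL0 : 0 < L := by linarith
  have hLpow : 0 < L ^ (ε - 1) := Real.rpow_pos_of_pos hL0 _
  have hlogL : 0 ≤ Real.log L := Real.log_nonneg hL1
  by_cases hbig : L < 36 * C1 ^ 2
  · -- trivial bound
    have h1 : ((Ω.filter fun i => 0 < U i ∧ Pass D (U i).toNat).card : ℝ) ≤ Ω.card := by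
      exact_mod_cast Finset.card_filter_le _ _
    refine h1.trans ?_
    have h4 : L⁻¹ ≤ L ^ (ε - 1) := by
      rw [← Real.rpow_neg_one]
      exact Real.rpow_le_rpow_of_exponent_le hL1 (by linarith)
    have h5 : 1 ≤ (36 * C1 ^ 2) * L ^ (ε - 1) := by
      calc (1 : ℝ) = L * L⁻¹ := by field_simp
        _ ≤ (36 * C1 ^ 2) * L ^ (ε - 1) := by
          apply mul_le_mul hbig.le h4 (by positivity) (by positivity)
    have h6 : (36 * C1 ^ 2 + C2 + 1) * Ω.card * L ^ (ε - 1) =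
        Ω.card * ((36 * C1 ^ 2) * L ^ (ε - 1)) + Ω.card * ((C2 + 1) * L ^ (ε - 1)) := by ring
    rw [h6]
    have hX0 : (0 : ℝ) ≤ Ω.card := Nat.cast_nonneg _
    have h7 : 0 ≤ (Ω.card : ℝ) * ((C2 + 1) * L ^ (ε - 1)) := by positivity
    nlinarith
  · push Not at hbig
    -- the choice of `z`
    set s : ℝ := L / (C1 * (1 + Real.log L)) with hs
    have hden : 0 < C1 * (1 + Real.log L) := by positivity
    have hs2 : 2 ≤ s := by
      rw [hs, le_div_iff₀ hden]
      have h1 := one_add_log_le (1 / 2) L (by norm_num) hL1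
      rw [← Real.sqrt_eq_rpow] at h1
      have h2 : 6 * C1 ≤ Real.sqrt L := by
        apply Real.le_sqrt_of_sq_le
        nlinarith
      have h3 : Real.sqrt L * Real.sqrt L = L := Real.mul_self_sqrt hL0.le
      have h5 : (0:ℝ) ≤ Real.sqrt L := Real.sqrt_nonneg _
      have h4 : 1 + Real.log L ≤ 3 * Real.sqrt L := by
        have : (1 + 1 / (1 / 2 : ℝ)) = 3 := by norm_num
        rw [this] at h1
        exact h1
      calc 2 * (C1 * (1 + Real.log L)) ≤ 2 * (C1 * (3 * Real.sqrt L)) := by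
            apply mul_le_mul_of_nonneg_left _ (by norm_num)
            exact mul_le_mul_of_nonneg_left h4 (by linarith)
        _ = (6 * C1) * Real.sqrt L := by ring
        _ ≤ Real.sqrt L * Real.sqrt L := mul_le_mul_of_nonneg_right h2 h5
        _ = L := h3
    set z : ℕ := ⌊Real.exp s⌋₊ with hz
    have hexps : 4 ≤ Real.exp s := by
      have h1 : Real.exp 2 ≤ Real.exp s := Real.exp_le_exp.2 hs2
      have h2 : Real.exp 2 = Real.exp 1 * Real.exp 1 := by rw [← Real.exp_add]; norm_num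
      have h3 := Real.exp_one_gt_d9
      nlinarith
    have hz4 : 4 ≤ z := by
      rw [hz]
      exact Nat.le_floor (by exact_mod_cast hexps)
    have hz3 : 3 ≤ z := by omega
    have hz0 : (0 : ℝ) < z := by
      have : 0 < z := by omega
      exact_mod_cast this
    have hzle : (z : ℝ) ≤ Real.exp s := Nat.floor_le (Real.exp_pos s).le
    have hzge : Real.exp s / 2 ≤ z := by
      have h1 : Real.exp s < z + 1 := Nat.lt_floor_add_one _
      linarith
    have hlogz_le : Real.log z ≤ s := by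
      have := Real.log_le_log hz0 hzle
      rwa [Real.log_exp] at this
    have hlogz_ge : s / 2 ≤ Real.log z := by
      have h1 := Real.log_le_log (by positivity) hzge
      rw [Real.log_div (Real.exp_pos s).ne' (by norm_num), Real.log_exp] at h1
      have h2 : Real.log 2 ≤ 1 := by
        have := Real.log_two_lt_d9
        linarith
      linarith
    have hlogz1 : 1 ≤ Real.log z := by linarith
    have hlogz0 : 0 < Real.log z := by linarith
    have hsL : s ≤ L := by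
      rw [hs]
      apply div_le_self hL0.le
      nlinarith
    have hll : Real.log (Real.log z) ≤ Real.log L :=
      Real.log_le_log hlogz0 (hlogz_le.trans hsL)
    have hll0 : 0 ≤ Real.log (Real.log z) := Real.log_nonneg hlogz1
    have hcond : C1 * Real.log z * (1 + Real.log (Real.log z)) ≤ Real.log X := by
      calc C1 * Real.log z * (1 + Real.log (Real.log z)) ≤ C1 * s * (1 + Real.log L) := by
            apply mul_le_mul _ (by linarith) (by linarith) (by positivity)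
            exact mul_le_mul_of_nonneg_left hlogz_le (by linarith)
        _ = L := by
            rw [hs]
            field_simp
    have h1 := H z X hz3 hcond σ Ω U hU
    refine h1.trans ?_
    have hY0 : (0 : ℝ) ≤ Ω.card := Nat.cast_nonneg _
    -- estimate the factors
    have e1 : (1 + Real.log (Real.log z)) ^ k ≤ (1 + Real.log L) ^ k :=
      pow_le_pow_left₀ (by linarith) (by linarith) k
    have e2 : (Real.log z) ^ (-Dk D k) ≤
        2 * C1 * (1 + Real.log L) * L ^ (-1 + ε / 2) := by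
      have f1 : (Real.log z) ^ (-Dk D k) ≤ (s / 2) ^ (-Dk D k) :=
        Real.rpow_le_rpow_of_nonpos (by linarith) hlogz_ge (by linarith)
      refine f1.trans ?_
      have f2 : s / 2 = L / (2 * (C1 * (1 + Real.log L))) := by
        rw [hs, div_div]
        ring_nf
      rw [f2, Real.div_rpow hL0.le (by positivity)]
      have f3 : L ^ (-Dk D k) ≤ L ^ (-1 + ε / 2) :=
        Real.rpow_le_rpow_of_exponent_le hL1 (by linarith)
      have f4 : (1 : ℝ) ≤ 2 * (C1 * (1 + Real.log L)) := by nlinarith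
      have f5 : ((2 * (C1 * (1 + Real.log L))) ^ (-Dk D k))⁻¹ ≤
          2 * (C1 * (1 + Real.log L)) := by
        rw [← Real.rpow_neg (by linarith)]
        calc (2 * (C1 * (1 + Real.log L))) ^ (-(-Dk D k))
            ≤ (2 * (C1 * (1 + Real.log L))) ^ (1 : ℝ) :=
              Real.rpow_le_rpow_of_exponent_le f4 (by linarith)
          _ = _ := Real.rpow_one _
      rw [div_eq_mul_inv]
      calc L ^ (-Dk D k) *
            ((2 * (C1 * (1 + Real.log L))) ^ (-Dk D k))⁻¹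
          ≤ L ^ (-1 + ε / 2) * (2 * (C1 * (1 + Real.log L))) :=
            mul_le_mul f3 f5 (by positivity) (by positivity)
        _ = _ := by ring
    have e3 : (1 + Real.log L) ^ (k + 1) ≤ (1 + 1 / a) ^ (k + 1) * L ^ (ε / 2) := by
      have f1 := one_add_log_le a L ha0 hL1
      calc (1 + Real.log L) ^ (k + 1) ≤ ((1 + 1 / a) * L ^ a) ^ (k + 1) :=
            pow_le_pow_left₀ (by linarith) f1 _
        _ = (1 + 1 / a) ^ (k + 1) * L ^ (ε / 2) := by
            rw [mul_pow, ← Real.rpow_natCast (L ^ a), ← Real.rpow_mul hL0.le]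
            congr 2
            rw [ha]
            push_cast
            field_simp
    have e4 : C1 * Ω.card * (1 + Real.log (Real.log z)) ^ k *
        (Real.log z) ^ (-Dk D k) ≤ C2 * Ω.card * L ^ (ε - 1) := by
      calc C1 * Ω.card * (1 + Real.log (Real.log z)) ^ k * (Real.log z) ^ (-Dk D k)
          ≤ C1 * Ω.card * (1 + Real.log L) ^ k * (2 * C1 * (1 + Real.log L) * L ^ (-1 + ε / 2)) := by
            apply mul_le_mul _ e2 (by positivity) (by positivity)
            exact mul_le_mul_of_nonneg_left e1 (by positivity)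
        _ = 2 * C1 ^ 2 * Ω.card * (1 + Real.log L) ^ (k + 1) * L ^ (-1 + ε / 2) := by ring
        _ ≤ 2 * C1 ^ 2 * Ω.card * ((1 + 1 / a) ^ (k + 1) * L ^ (ε / 2)) * L ^ (-1 + ε / 2) := by
            apply mul_le_mul_of_nonneg_right _ (by positivity)
            exact mul_le_mul_of_nonneg_left e3 (by positivity)
        _ = C2 * Ω.card * (L ^ (ε / 2) * L ^ (-1 + ε / 2)) := by rw [hC2]; ring
        _ = C2 * Ω.card * L ^ (ε - 1) := by
            rw [← Real.rpow_add hL0]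
            congr 2
            ring
    refine e4.trans ?_
    have h6 : (36 * C1 ^ 2 + C2 + 1) * Ω.card * L ^ (ε - 1) =
        C2 * Ω.card * L ^ (ε - 1) + (36 * C1 ^ 2 + 1) * Ω.card * L ^ (ε - 1) := by ring
    rw [h6]
    have h7 : 0 ≤ (36 * C1 ^ 2 + 1) * Ω.card * L ^ (ε - 1) := by positivity
    linarith


end Pool.Agent.Run7.h582.OD
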