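import Pool.Agent.Run7.h582.OD.Od3
import Pool.Agent.Run7.h582.FM.De1
import Pool.Agent.Run7.h582.FM.Es3

set_option autoImplicit false

/-!
Families with a polynomial decay of the characteristic function are uniformly distributed in residue classes; the measure
of the set of the `x` such that an integer near `lam * x + c` passes the tests of a `Dat`.
-/

namespace Pool.Agent.Run7.h582.OD

open Finset Filter MeasureTheory
open Pool.Agent.H807R2.Dav (ee norm_ee ee_add ee_add_int)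
open Pool.Agent.H373R2.T7 (orth)
open Pool.Agent.Run7.h582.FM (CH hasCls_ch cls_measure bc0 Decay)
open Pool.Agent.W114.PQ (Dat Pass Dk)
open Pool.Agent.Y346.SG (AxG S_MN S_BK)

lemma far (q t : ℕ) (ht : 1 ≤ t) (htq : t < q) : 1 / (q : ℝ) ≤ |(t : ℝ) / q - round ((t : ℝ) / q)| := by
  have hq0 : (0 : ℝ) < q := by exact_mod_cast (by omega : 0 < q)
  obtain ⟨r, hr⟩ : ∃ r : ℤ, r = round ((t : ℝ) / q) := ⟨_, rfl⟩
  rw [← hr]
  have h1 : (t : ℤ) - q * r ≠ 0 := by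
    intro h
    have h2 : (t : ℤ) = q * r := by omega
    have h3 : (q : ℤ) ∣ t := ⟨r, h2⟩
    have h4 : q ∣ t := by exact_mod_cast h3
    have := Nat.le_of_dvd (by omega) h4
    omega
  have h2 : (1 : ℝ) ≤ |((t : ℤ) - q * r : ℤ)| := by exact_mod_cast Int.one_le_abs h1
  have h3 : (t : ℝ) / q - r = (((t : ℤ) - q * r : ℤ) : ℝ) / q := by
    push_cast
    field_simp
  rw [h3, abs_div, abs_of_pos hq0]
  exact div_le_div_of_nonneg_right (by exact_mod_cast h2) hq0.le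

open Classical in
theorem uni_of_ch {A k N : ℕ} (hA : 1 ≤ A) (hN : 1 ≤ N) (hk : (4 : ℝ) ^ A * (N : ℝ) ^ (2 * A + 2) ≤ 2 ^ k)
    {τ : Type} {S : Finset τ} {w : τ → ℤ} (h : CH A k τ S w) : Uni N S w := by
  intro q hq hqN a
  have hq0 : (0 : ℝ) < q := by exact_mod_cast hq
  have hN0 : (0 : ℝ) < N := by exact_mod_cast hN
  have hqNr : (q : ℝ) ≤ (N : ℝ) ^ 2 := by exact_mod_cast hqN
  have hS0 : (0 : ℝ) ≤ S.card := Nat.cast_nonneg _
  have hF : ∀ t ∈ Ico 1 q, ‖∑ i ∈ S, ee ((t : ℝ) * (((w i - a : ℤ) : ℝ) / q))‖ ≤ S.card / (N : ℝ) ^ 2 := by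
    intro t ht
    rw [mem_Ico] at ht
    have e1 : ‖∑ i ∈ S, ee ((t : ℝ) * (((w i - a : ℤ) : ℝ) / q))‖ = ‖∑ i ∈ S, ee ((t : ℝ) / q * w i)‖ := by
      have h1 : ∀ i ∈ S, ee ((t : ℝ) * (((w i - a : ℤ) : ℝ) / q)) = ee (-((t : ℝ) / q * a)) * ee ((t : ℝ) / q * w i) := by
        intro i _
        rw [← ee_add]
        congr 1
        push_cast
        ring
      rw [sum_congr rfl h1, ← mul_sum, norm_mul, norm_ee, one_mul]
    rw [e1]
    obtain ⟨F, hFdef⟩ : ∃ F, F = ‖∑ i ∈ S, ee ((t : ℝ) / q * w i)‖ := ⟨_, rfl⟩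
    have h2 := h ((t : ℝ) / q)
    rw [← hFdef] at h2 ⊢
    have hF0 : 0 ≤ F := by rw [hFdef]; positivity
    have h3 := far q t ht.1 ht.2
    have h4 : F ^ A * 2 ^ k ≤ (4 * S.card) ^ A * q := by
      have h5 : F ^ A * (2 ^ k * (1 / q)) ≤ (4 * S.card) ^ A := by
        refine le_trans ?_ h2
        apply mul_le_mul_of_nonneg_left _ (by positivity)
        exact mul_le_mul_of_nonneg_left h3 (by positivity)
      calc F ^ A * 2 ^ k = F ^ A * (2 ^ k * (1 / q)) * q := by field_simp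
        _ ≤ _ := mul_le_mul_of_nonneg_right h5 hq0.le
    have h6 : (F * (N : ℝ) ^ 2) ^ A ≤ (S.card : ℝ) ^ A := by
      have h7 : F ^ A * (4 ^ A * (N : ℝ) ^ (2 * A + 2)) ≤ (4 * S.card) ^ A * (N : ℝ) ^ 2 :=
        (mul_le_mul_of_nonneg_left hk (by positivity)).trans (h4.trans (mul_le_mul_of_nonneg_left hqNr (by positivity)))
      have e2 : F ^ A * (4 ^ A * (N : ℝ) ^ (2 * A + 2)) = (F * (N : ℝ) ^ 2) ^ A * (4 ^ A * (N : ℝ) ^ 2) := by
        rw [mul_pow, ← pow_mul, pow_add]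
        ring
      have e3 : (4 * (S.card : ℝ)) ^ A * (N : ℝ) ^ 2 = (S.card : ℝ) ^ A * (4 ^ A * (N : ℝ) ^ 2) := by
        rw [mul_pow]
        ring
      rw [e2, e3] at h7
      exact le_of_mul_le_mul_right h7 (by positivity)
    have h8 : F * (N : ℝ) ^ 2 ≤ S.card := (pow_le_pow_iff_left₀ (by positivity) hS0 (by omega)).1 h6
    rw [le_div_iff₀ (by positivity)]
    exact h8
  have h1 : (q : ℂ) * ((S.filter fun i => (q : ℤ) ∣ w i - a).card : ℂ) =
      ∑ t ∈ range q, ∑ i ∈ S, ee ((t : ℝ) * (((w i - a : ℤ) : ℝ) / q)) := by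
    rw [sum_comm]
    have h2 : ∀ i ∈ S, ∑ t ∈ range q, ee ((t : ℝ) * (((w i - a : ℤ) : ℝ) / q)) = if (q : ℤ) ∣ w i - a then (q : ℂ) else 0 :=
      fun i _ => orth q hq (w i - a)
    rw [sum_congr rfl h2, ← sum_filter, sum_const, nsmul_eq_mul, mul_comm]
  have h0 : ∑ i ∈ S, ee (((0 : ℕ) : ℝ) * (((w i - a : ℤ) : ℝ) / q)) = (S.card : ℂ) := by
    have h2 : ∀ i ∈ S, ee (((0 : ℕ) : ℝ) * (((w i - a : ℤ) : ℝ) / q)) = 1 := by
      intro i _
      unfold ee
      simp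
    rw [sum_congr rfl h2, sum_const, nsmul_eq_mul, mul_one]
  have h2 : (q : ℂ) * ((S.filter fun i => (q : ℤ) ∣ w i - a).card : ℂ) - (S.card : ℂ) =
      ∑ t ∈ Ico 1 q, ∑ i ∈ S, ee ((t : ℝ) * (((w i - a : ℤ) : ℝ) / q)) := by
    rw [h1, Finset.range_eq_Ico, Finset.sum_eq_sum_Ico_succ_bot (by omega : 0 < q), h0]
    ring
  have h3 : |(q : ℝ) * ((S.filter fun i => (q : ℤ) ∣ w i - a).card : ℝ) - S.card| ≤ q * (S.card / (N : ℝ) ^ 2) := by
    have e1 : |(q : ℝ) * ((S.filter fun i => (q : ℤ) ∣ w i - a).card : ℝ) - S.card| =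
        ‖(q : ℂ) * ((S.filter fun i => (q : ℤ) ∣ w i - a).card : ℂ) - (S.card : ℂ)‖ := by
      rw [← Real.norm_eq_abs, ← Complex.norm_real]
      congr 1
      push_cast
      rfl
    rw [e1, h2]
    refine (norm_sum_le _ _).trans ((sum_le_sum hF).trans ?_)
    rw [sum_const, Nat.card_Ico, nsmul_eq_mul]
    apply mul_le_mul_of_nonneg_right _ (by positivity)
    exact_mod_cast Nat.sub_le q 1
  have e4 : (((S.filter fun i => (q : ℤ) ∣ w i - a).card : ℝ) - S.card / q) =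
      ((q : ℝ) * ((S.filter fun i => (q : ℤ) ∣ w i - a).card : ℝ) - S.card) / q := by
    field_simp
  rw [e4, abs_div, abs_of_pos hq0, div_le_iff₀ hq0]
  exact h3.trans (le_of_eq (mul_comm _ _))

/-- the measure of the exceptional sets -/
def MeasG (μ : Measure ℝ) (P : ℤ → Prop) : Prop :=
  ∀ ε : ℝ, 0 < ε → ε < 1 → ∃ C : ℝ, 0 < C ∧ ∀ (lam c : ℝ), 3 ≤ lam → ∀ D : ℕ,
    μ.real {x | ¬ ∀ q : ℤ, |(q : ℝ) - (lam * x + c)| ≤ D → P q} ≤ C * ((D + 1) * Real.log lam ^ (ε - 1))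

lemma log3 {x : ℝ} (hx : 3 ≤ x) : 1 ≤ Real.log x := by
  rw [Real.le_log_iff_exp_le (by linarith)]
  linarith [Real.exp_one_lt_d9]

theorem meas_pass (mn : S_MN) (bk : S_BK) (D : Dat) (hD : AxG D) (hτ : D.τ + D.β / 2 = 1) (μ : Measure ℝ) (hμ : Decay μ) :
    MeasG μ (fun v => 0 < v → ¬ Pass D v.toNat) := by
  classical
  intro ε hε hε1
  have hfin : IsFiniteMeasure μ := hμ.1
  obtain ⟨A, C0, hA1, hC0, hcls⟩ := cls_measure CH hasCls_ch μ hμ
  obtain ⟨C1, hC1, hoc⟩ := ocF mn bk D hD hτ ε hε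
  obtain ⟨ρ, hρ⟩ : ∃ ρ : ℝ, ρ = 1 / (4 * (A + 1)) := ⟨_, rfl⟩
  have hA0 : (0 : ℝ) ≤ A := Nat.cast_nonneg _
  have hρ0 : 0 < ρ := by rw [hρ]; positivity
  obtain ⟨L₀, hL₀⟩ := eventually_atTop.1 (((tendsto_rpow_atTop (show (0 : ℝ) < 1 / 2 by norm_num)).eventually_ge_atTop ((4 : ℝ) ^ A)).and
    ((tendsto_rpow_atTop hρ0).eventually_ge_atTop 4))
  obtain ⟨M, hM⟩ : ∃ M, M = μ.real Set.univ := ⟨_, rfl⟩
  have hM0 : 0 ≤ M := by rw [hM]; exact measureReal_nonneg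
  obtain ⟨L₁, hL₁⟩ : ∃ L₁ : ℝ, L₁ = max L₀ 3 := ⟨_, rfl⟩
  have hL₁3 : 3 ≤ L₁ := by rw [hL₁]; exact le_max_right _ _
  have hlogL₁ := log3 hL₁3
  have hρ2 : 0 < (ρ / 2) ^ (ε - 1) := Real.rpow_pos_of_pos (by positivity) _
  refine ⟨C0 * (5 * (C1 * (ρ / 2) ^ (ε - 1)) + 1) + M * Real.log L₁, by positivity, fun lam c hlam Dw => ?_⟩
  have hl := log3 hlam
  have hl0 : 0 < Real.log lam := by linarith
  have hlam0 : 0 < lam := by linarith
  have hp0 : 0 < Real.log lam ^ (ε - 1) := Real.rpow_pos_of_pos hl0 _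
  have hinv : (Real.log lam)⁻¹ ≤ Real.log lam ^ (ε - 1) := by
    rw [← Real.rpow_neg_one]
    exact Real.rpow_le_rpow_of_exponent_le hl (by linarith)
  have hD0 : (0 : ℝ) ≤ Dw := Nat.cast_nonneg _
  rcases lt_or_ge lam L₁ with hsmall | hbig
  · have h1 : μ.real {x | ¬ ∀ q : ℤ, |(q : ℝ) - (lam * x + c)| ≤ Dw → (0 < q → ¬ Pass D q.toNat)} ≤ M := by
      rw [hM]
      exact measureReal_mono (Set.subset_univ _) (measure_ne_top μ _)
    refine h1.trans ?_
    have h2 : 1 ≤ Real.log L₁ * Real.log lam ^ (ε - 1) := by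
      have h3 : Real.log lam ≤ Real.log L₁ := Real.log_le_log hlam0 hsmall.le
      calc (1 : ℝ) = Real.log lam * (Real.log lam)⁻¹ := by field_simp
        _ ≤ Real.log L₁ * Real.log lam ^ (ε - 1) := mul_le_mul h3 hinv (by positivity) (by linarith)
    have h4 : M ≤ M * Real.log L₁ * ((Dw + 1) * Real.log lam ^ (ε - 1)) := by
      have h5 : 1 ≤ Real.log L₁ * ((Dw + 1) * Real.log lam ^ (ε - 1)) := by
        calc (1 : ℝ) ≤ Real.log L₁ * Real.log lam ^ (ε - 1) := h2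
          _ ≤ Real.log L₁ * ((Dw + 1) * Real.log lam ^ (ε - 1)) := by
            apply mul_le_mul_of_nonneg_left _ (by linarith)
            nlinarith
      nlinarith
    have h6 : 0 ≤ C0 * (5 * (C1 * (ρ / 2) ^ (ε - 1)) + 1) * ((Dw + 1) * Real.log lam ^ (ε - 1)) := by positivity
    nlinarith
  · have hL0 : L₀ ≤ lam := (by rw [hL₁]; exact le_max_left _ _ : L₀ ≤ L₁).trans hbig
    obtain ⟨h4A, h4ρ⟩ := hL₀ lam hL0
    obtain ⟨N, hN⟩ : ∃ N, N = ⌊lam ^ ρ⌋₊ := ⟨_, rfl⟩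
    have hρp : 0 ≤ lam ^ ρ := by positivity
    have hNle : (N : ℝ) ≤ lam ^ ρ := by rw [hN]; exact Nat.floor_le hρp
    have hN4 : 4 ≤ N := by rw [hN]; exact Nat.le_floor (by exact_mod_cast h4ρ)
    have hNge : lam ^ (ρ / 2) ≤ N := by
      have h1 : lam ^ ρ < N + 1 := by rw [hN]; exact Nat.lt_floor_add_one _
      have h2 : lam ^ ρ = lam ^ (ρ / 2) * lam ^ (ρ / 2) := by
        rw [← Real.rpow_add hlam0]
        congr 1
        ring
      have h3 : 0 < lam ^ (ρ / 2) := Real.rpow_pos_of_pos hlam0 _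
      have h4 : 2 ≤ lam ^ (ρ / 2) := by
        by_contra hcon
        push Not at hcon
        nlinarith
      nlinarith
    have hNpow : (4 : ℝ) ^ A * (N : ℝ) ^ (2 * A + 2) ≤ lam := by
      have h1 : (N : ℝ) ^ (2 * A + 2) ≤ lam ^ (1 / 2 : ℝ) := by
        calc (N : ℝ) ^ (2 * A + 2) ≤ (lam ^ ρ) ^ (2 * A + 2) := pow_le_pow_left₀ (Nat.cast_nonneg _) hNle _
          _ = lam ^ (1 / 2 : ℝ) := by
            rw [← Real.rpow_natCast, ← Real.rpow_mul hlam0.le]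
            congr 1
            rw [hρ]
            push_cast
            field_simp
            ring
      have h2 : lam = lam ^ (1 / 2 : ℝ) * lam ^ (1 / 2 : ℝ) := by
        rw [← Real.rpow_add hlam0]
        norm_num
      calc (4 : ℝ) ^ A * (N : ℝ) ^ (2 * A + 2) ≤ lam ^ (1 / 2 : ℝ) * lam ^ (1 / 2 : ℝ) :=
            mul_le_mul h4A h1 (by positivity) (by positivity)
        _ = lam := h2.symm
    obtain ⟨β, hβ⟩ : ∃ β, β = C1 * (ρ / 2) ^ (ε - 1) * Real.log lam ^ (ε - 1) := ⟨_, rfl⟩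
    have hβ0 : 0 ≤ β := by rw [hβ]; positivity
    have hlogN : Real.log N ^ (ε - 1) ≤ (ρ / 2) ^ (ε - 1) * Real.log lam ^ (ε - 1) := by
      rw [← Real.mul_rpow (by positivity) hl0.le]
      apply Real.rpow_le_rpow_of_nonpos (by positivity) _ (by linarith)
      rw [← Real.log_rpow hlam0]
      exact Real.log_le_log (Real.rpow_pos_of_pos hlam0 _) hNge
    have key := hcls lam c (by linarith) Dw (fun v => 0 < v → ¬ Pass D v.toNat) β hβ0 (by
      intro k hk τ S w hS hch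
      have hU := uni_of_ch hA1 (by omega) (hNpow.trans hk) hch
      have h1 := hoc N (by omega) τ S w hU
      have e1 : ({i ∈ S | ¬ (0 < w i → ¬ Pass D (w i).toNat)} : Set τ).ncard =
          (S.filter fun i => 0 < w i ∧ Pass D (w i).toNat).card := by
        rw [← Set.ncard_coe_finset]
        congr 1
        ext i
        simp only [Set.mem_ofPred_eq, coe_filter]
        tauto
      rw [e1]
      refine h1.trans ?_
      rw [hβ]
      calc C1 * S.card * Real.log N ^ (ε - 1) ≤ C1 * S.card * ((ρ / 2) ^ (ε - 1) * Real.log lam ^ (ε - 1)) :=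
            mul_le_mul_of_nonneg_left hlogN (by positivity)
        _ = _ := by ring)
    refine key.trans ?_
    have h1 : 1 / lam ≤ (Dw + 1) * Real.log lam ^ (ε - 1) := by
      have h2 : 1 / lam ≤ (Real.log lam)⁻¹ := by
        rw [one_div]
        apply inv_anti₀ hl0
        have := Real.log_le_sub_one_of_pos hlam0
        linarith
      have h3 : Real.log lam ^ (ε - 1) ≤ (Dw + 1) * Real.log lam ^ (ε - 1) := by nlinarith
      linarith
    have h4 : (2 * (Dw : ℝ) + 5) * β ≤ 5 * (C1 * (ρ / 2) ^ (ε - 1)) * ((Dw + 1) * Real.log lam ^ (ε - 1)) := by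
      have h5 : (2 * (Dw : ℝ) + 5) ≤ 5 * (Dw + 1) := by linarith
      calc (2 * (Dw : ℝ) + 5) * β ≤ 5 * (Dw + 1) * β := mul_le_mul_of_nonneg_right h5 hβ0
        _ = _ := by rw [hβ]; ring
    have h6 : 0 ≤ M * Real.log L₁ * ((Dw + 1) * Real.log lam ^ (ε - 1)) := by positivity
    calc C0 * ((2 * Dw + 5) * β + 1 / lam) ≤ C0 * (5 * (C1 * (ρ / 2) ^ (ε - 1)) * ((Dw + 1) * Real.log lam ^ (ε - 1)) +
          (Dw + 1) * Real.log lam ^ (ε - 1)) := by
          apply mul_le_mul_of_nonneg_left _ hC0.le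
          linarith
      _ = C0 * (5 * (C1 * (ρ / 2) ^ (ε - 1)) + 1) * ((Dw + 1) * Real.log lam ^ (ε - 1)) := by ring
      _ ≤ _ := by
        rw [add_mul (C0 * (5 * (C1 * (ρ / 2) ^ (ε - 1)) + 1)) (M * Real.log L₁)]
        linarith

theorem MeasG.mono {μ : Measure ℝ} [IsFiniteMeasure μ] {P Q : ℤ → Prop} (h : MeasG μ P) (hPQ : ∀ v, P v → Q v) : MeasG μ Q := by
  intro ε hε hε1
  obtain ⟨C, hC, H⟩ := h ε hε hε1
  refine ⟨C, hC, fun lam c hlam D => le_trans (measureReal_mono ?_ (measure_ne_top μ _)) (H lam c hlam D)⟩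
  intro x hx
  simp only [Set.mem_ofPred_eq] at hx ⊢
  exact fun h1 => hx fun q hq => hPQ q (h1 q hq)

theorem MeasG.and {μ : Measure ℝ} [IsFiniteMeasure μ] {P Q : ℤ → Prop} (h : MeasG μ P) (h' : MeasG μ Q) :
    MeasG μ (fun v => P v ∧ Q v) := by
  intro ε hε hε1
  obtain ⟨C, hC, H⟩ := h ε hε hε1
  obtain ⟨C', hC', H'⟩ := h' ε hε hε1
  refine ⟨C + C', by positivity, fun lam c hlam D => ?_⟩
  have h1 : {x | ¬ ∀ q : ℤ, |(q : ℝ) - (lam * x + c)| ≤ D → (P q ∧ Q q)} ⊆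
      {x | ¬ ∀ q : ℤ, |(q : ℝ) - (lam * x + c)| ≤ D → P q} ∪ {x | ¬ ∀ q : ℤ, |(q : ℝ) - (lam * x + c)| ≤ D → Q q} := by
    intro x hx
    simp only [Set.mem_ofPred_eq, Set.mem_union] at hx ⊢
    by_contra hcon
    push Not at hcon
    exact hx fun q hq => ⟨hcon.1 q hq, hcon.2 q hq⟩
  refine (measureReal_mono h1 (measure_ne_top μ _)).trans ((measureReal_union_le _ _).trans ?_)
  have h2 := H lam c hlam D
  have h3 := H' lam c hlam D
  rw [add_mul]
  linarith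

theorem MeasG.all {μ : Measure ℝ} [IsFiniteMeasure μ] {ι : Type} (s : Finset ι) {P : ι → ℤ → Prop} (h : ∀ i ∈ s, MeasG μ (P i)) :
    MeasG μ (fun v => ∀ i ∈ s, P i v) := by
  classical
  induction s using Finset.induction_on with
  | empty =>
    intro ε hε hε1
    refine ⟨1, one_pos, fun lam c hlam D => ?_⟩
    have h1 : {x : ℝ | ¬ ∀ q : ℤ, |(q : ℝ) - (lam * x + c)| ≤ D → ∀ i ∈ (∅ : Finset ι), P i q} = ∅ := by
      ext x
      simp
    rw [h1]
    have hl := log3 hlam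
    simp only [measureReal_empty]
    positivity
  | insert a s ha ih =>
    have h1 := (h a (mem_insert_self a s)).and (ih fun i hi => h i (mem_insert_of_mem hi))
    refine h1.mono fun v hv i hi => ?_
    rcases mem_insert.1 hi with rfl | h2
    · exact hv.1
    · exact hv.2 i h2

end Pool.Agent.Run7.h582.OD
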