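import Pool.Agent.Run7.h582.OD.Od4

set_option autoImplicit false

/-!
From the measure of the exceptional sets to almost every `x`: for sparse sequences no exception at all for large `n`, for
general sequences few exceptions.
-/

namespace Pool.Agent.Run7.h582.OD

open Finset Filter MeasureTheory
open Pool.Agent.Run7.h582.FM (bc0)

/-- the set of the exceptional points at one scale -/
def Bad (P : ℤ → Prop) (κ lam c : ℝ) : Set ℝ := {x | ¬ ∀ q : ℤ, |(q : ℝ) - (lam * x + c)| ≤ Real.log lam ^ κ → P q}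

lemma bad_meas (P : ℤ → Prop) (κ lam c : ℝ) : MeasurableSet (Bad P κ lam c) := by
  have h1 : Bad P κ lam c = ⋃ q ∈ {q : ℤ | ¬ P q}, {x | |(q : ℝ) - (lam * x + c)| ≤ Real.log lam ^ κ} := by
    ext x
    simp only [Bad, Set.mem_ofPred_eq, Set.mem_iUnion, exists_prop]
    push Not
    constructor
    · rintro ⟨q, h1, h2⟩
      exact ⟨q, h2, h1⟩
    · rintro ⟨q, h1, h2⟩
      exact ⟨q, h2, h1⟩
  rw [h1]
  refine MeasurableSet.biUnion (Set.to_countable _) fun q _ => ?_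
  exact measurableSet_le (by fun_prop) measurable_const

lemma bad_le {μ : Measure ℝ} [IsFiniteMeasure μ] {P : ℤ → Prop} (hP : MeasG μ P) (κ ε : ℝ) (hκ : 0 ≤ κ) (hε : 0 < ε)
    (hε1 : ε < 1 - κ) : ∃ C : ℝ, 0 < C ∧ ∀ lam c : ℝ, 3 ≤ lam → μ.real (Bad P κ lam c) ≤ C * Real.log lam ^ (κ + ε - 1) := by
  obtain ⟨C, hC, H⟩ := hP ε hε (by linarith)
  refine ⟨3 * C, by positivity, fun lam c hlam => ?_⟩
  have hl := log3 hlam
  have hl0 : 0 < Real.log lam := by linarith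
  have hκ1 : 1 ≤ Real.log lam ^ κ := Real.one_le_rpow hl hκ
  have h1 : Bad P κ lam c ⊆ {x | ¬ ∀ q : ℤ, |(q : ℝ) - (lam * x + c)| ≤ (⌈Real.log lam ^ κ⌉₊ : ℕ) → P q} := by
    intro x hx
    simp only [Bad, Set.mem_ofPred_eq] at hx ⊢
    exact fun h2 => hx fun q hq => h2 q (hq.trans (Nat.le_ceil _))
  refine (measureReal_mono h1 (measure_ne_top μ _)).trans ((H lam c hlam _).trans ?_)
  have h2 : ((⌈Real.log lam ^ κ⌉₊ : ℕ) : ℝ) + 1 ≤ 3 * Real.log lam ^ κ := by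
    have := Nat.ceil_lt_add_one (show 0 ≤ Real.log lam ^ κ by positivity)
    linarith
  calc C * ((((⌈Real.log lam ^ κ⌉₊ : ℕ) : ℝ) + 1) * Real.log lam ^ (ε - 1)) ≤
        C * ((3 * Real.log lam ^ κ) * Real.log lam ^ (ε - 1)) := by gcongr
    _ = 3 * C * (Real.log lam ^ κ * Real.log lam ^ (ε - 1)) := by ring
    _ = 3 * C * Real.log lam ^ (κ + ε - 1) := by
      rw [← Real.rpow_add hl0]
      congr 2
      ring

/-- sparse sequences: no exception for all large `n` -/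
theorem ae_sparse {μ : Measure ℝ} [IsFiniteMeasure μ] {P : ℤ → Prop} (hP : MeasG μ P) (κ η : ℝ) (hκ : 0 ≤ κ) (hκ1 : κ < 1)
    (hη : 1 < η * (1 - κ)) (lam c : ℕ → ℝ) (hlam : ∀ᶠ n : ℕ in atTop, Real.exp ((n : ℝ) ^ η) ≤ lam n) :
    ∀ᵐ x ∂μ, ∀ᶠ n : ℕ in atTop, ∀ q : ℤ, |(q : ℝ) - (lam n * x + c n)| ≤ Real.log (lam n) ^ κ → P q := by
  have hη0 : 0 < η := by
    by_contra hcon
    push Not at hcon
    nlinarith
  obtain ⟨ε, hεdef⟩ : ∃ ε : ℝ, ε = (1 - κ - 1 / η) / 2 := ⟨_, rfl⟩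
  have hη1 : 1 / η < 1 - κ := by
    rw [div_lt_iff₀ hη0]
    linarith
  have hη2 : 0 < 1 / η := by positivity
  have hε : 0 < ε := by linarith
  have hε1 : ε < 1 - κ := by linarith
  obtain ⟨C, hC, H⟩ := bad_le hP κ ε hκ hε hε1
  have hs : η * (κ + ε - 1) < -1 := by
    have h1 : κ + ε - 1 < -(1 / η) := by linarith
    calc η * (κ + ε - 1) < η * (-(1 / η)) := mul_lt_mul_of_pos_left h1 hη0
      _ = -1 := by field_simp
  have h := bc0 μ (fun n => Bad P κ (lam n) (c n)) (fun n : ℕ => C * (n : ℝ) ^ (η * (κ + ε - 1)))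
    ((Real.summable_nat_rpow.2 hs).mul_left C) (by
      have hev : ∀ᶠ n : ℕ in atTop, (2 : ℝ) ≤ (n : ℝ) ^ η :=
        ((tendsto_rpow_atTop hη0).comp tendsto_natCast_atTop_atTop).eventually_ge_atTop 2
      filter_upwards [hlam, hev, eventually_ge_atTop 1] with n hn h2 hn1
      have hn0 : (0 : ℝ) < n := by exact_mod_cast hn1
      have h3 : (3 : ℝ) ≤ lam n := by
        refine le_trans ?_ hn
        have h4 := Real.add_one_le_exp ((n : ℝ) ^ η)
        linarith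
      refine (H (lam n) (c n) h3).trans (mul_le_mul_of_nonneg_left ?_ hC.le)
      rw [Real.rpow_mul hn0.le]
      apply Real.rpow_le_rpow_of_nonpos (by positivity) _ (by linarith)
      rw [Real.le_log_iff_exp_le (by linarith)]
      exact hn)
  filter_upwards [h] with x hx
  filter_upwards [hx] with n hn q hq
  by_contra hcon
  exact hn (fun h1 => hcon (h1 q hq))

/-- general sequences: few exceptions -/
theorem ae_few {μ : Measure ℝ} [IsFiniteMeasure μ] {P : ℤ → Prop} (hP : MeasG μ P) (κ η θ δ : ℝ) (hκ : 0 ≤ κ) (hκ1 : κ < 1)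
    (hη0 : 0 < η) (hθ : 0 < θ) (hδ : 0 < δ) (hη : η * (1 - κ) ≤ 1) (lam c : ℕ → ℝ)
    (hlam : ∀ᶠ n : ℕ in atTop, Real.exp (θ * (n : ℝ) ^ η) ≤ lam n) :
    ∀ᵐ x ∂μ, ∀ᶠ X : ℕ in atTop, (({n ∈ Icc 1 X | ¬ ∀ q : ℤ, |(q : ℝ) - (lam n * x + c n)| ≤ Real.log (lam n) ^ κ → P q} :
      Set ℕ).ncard : ℝ) ≤ (X : ℝ) ^ (1 - η * (1 - κ) + δ) := by
  classical
  obtain ⟨ε, hεdef⟩ : ∃ ε : ℝ, ε = min ((1 - κ) / 2) (δ / (8 * η)) := ⟨_, rfl⟩
  have hε : 0 < ε := by
    rw [hεdef]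
    exact lt_min (by linarith) (by positivity)
  have hε1 : ε < 1 - κ := by
    rw [hεdef]
    exact (min_le_left _ _).trans_lt (by linarith)
  have hηε : η * ε ≤ δ / 8 := by
    have h1 : ε ≤ δ / (8 * η) := by rw [hεdef]; exact min_le_right _ _
    calc η * ε ≤ η * (δ / (8 * η)) := mul_le_mul_of_nonneg_left h1 hη0.le
      _ = δ / 8 := by field_simp
  obtain ⟨C, hC, H⟩ := bad_le hP κ ε hκ hε hε1
  obtain ⟨s, hs⟩ : ∃ s, s = η * (1 - κ) := ⟨_, rfl⟩
  rw [← hs] at hη ⊢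
  have hs0 : 0 < s := by rw [hs]; exact mul_pos hη0 (by linarith)
  obtain ⟨M, hM⟩ : ∃ M, M = μ.real Set.univ := ⟨_, rfl⟩
  have hM0 : 0 ≤ M := by rw [hM]; exact measureReal_nonneg
  -- the measure of the exceptional sets
  have hev : ∀ᶠ n : ℕ in atTop, (2 : ℝ) ≤ θ * (n : ℝ) ^ η := by
    have h1 : Tendsto (fun n : ℕ => θ * (n : ℝ) ^ η) atTop atTop :=
      Tendsto.const_mul_atTop hθ ((tendsto_rpow_atTop hη0).comp tendsto_natCast_atTop_atTop)
    exact h1.eventually_ge_atTop 2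
  obtain ⟨n₀, hn₀⟩ := eventually_atTop.1 ((hlam.and hev).and (eventually_ge_atTop 1))
  obtain ⟨C2, hC2⟩ : ∃ C2, C2 = C * θ ^ (κ + ε - 1) + M * (n₀ + 1) := ⟨_, rfl⟩
  have hθp : 0 < θ ^ (κ + ε - 1) := Real.rpow_pos_of_pos hθ _
  have hC20 : 0 < C2 := by rw [hC2]; positivity
  have hb : ∀ n : ℕ, 1 ≤ n → ∀ X : ℕ, n ≤ X → μ.real (Bad P κ (lam n) (c n)) ≤ C2 * (X : ℝ) ^ (1 - s + η * ε) * (1 / n) := by
    intro n hn1 X hnX
    have hn0 : (0 : ℝ) < n := by exact_mod_cast hn1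
    have hnr : (1 : ℝ) ≤ n := by exact_mod_cast hn1
    have hXn : (n : ℝ) ≤ X := by exact_mod_cast hnX
    have hexp : 0 ≤ 1 - s + η * ε := by
      have : 0 < η * ε := by positivity
      linarith
    have hX1 : 1 ≤ (X : ℝ) ^ (1 - s + η * ε) := Real.one_le_rpow (hnr.trans hXn) hexp
    rcases lt_or_ge n n₀ with h | h
    · have h1 : μ.real (Bad P κ (lam n) (c n)) ≤ M := by
        rw [hM]
        exact measureReal_mono (Set.subset_univ _) (measure_ne_top μ _)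
      have h2 : (n : ℝ) ≤ n₀ := by exact_mod_cast h.le
      have h3 : M ≤ M * (n₀ + 1) * (1 / n) := by
        rw [mul_one_div, le_div_iff₀ hn0]
        apply mul_le_mul_of_nonneg_left _ hM0
        linarith
      have h4 : M * (n₀ + 1) ≤ C2 * (X : ℝ) ^ (1 - s + η * ε) := by
        have h5 : M * (n₀ + 1) ≤ C2 := by
          rw [hC2]
          have : 0 ≤ C * θ ^ (κ + ε - 1) := by positivity
          linarith
        nlinarith
      exact (h1.trans h3).trans (mul_le_mul_of_nonneg_right h4 (by positivity))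
    · obtain ⟨⟨h1, h2⟩, _⟩ := hn₀ n h
      have h3 : (3 : ℝ) ≤ lam n := by
        refine le_trans ?_ h1
        have h4 := Real.add_one_le_exp (θ * (n : ℝ) ^ η)
        linarith
      have h4 := H (lam n) (c n) h3
      have h5 : Real.log (lam n) ^ (κ + ε - 1) ≤ (θ * (n : ℝ) ^ η) ^ (κ + ε - 1) := by
        apply Real.rpow_le_rpow_of_nonpos (by positivity) _ (by linarith)
        rw [Real.le_log_iff_exp_le (by linarith)]
        exact h1
      have h6 : (θ * (n : ℝ) ^ η) ^ (κ + ε - 1) = θ ^ (κ + ε - 1) * ((n : ℝ) ^ (1 - s + η * ε) * (1 / n)) := by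
        rw [Real.mul_rpow hθ.le (by positivity), ← Real.rpow_mul hn0.le, one_div, ← Real.rpow_neg_one (n : ℝ),
          ← Real.rpow_add hn0]
        congr 2
        rw [hs]
        ring
      have h7 : (n : ℝ) ^ (1 - s + η * ε) ≤ (X : ℝ) ^ (1 - s + η * ε) := Real.rpow_le_rpow hn0.le hXn hexp
      have h8 : 0 ≤ M * (n₀ + 1) := by positivity
      have h9 : (0 : ℝ) ≤ 1 / n := by positivity
      calc μ.real (Bad P κ (lam n) (c n)) ≤ C * Real.log (lam n) ^ (κ + ε - 1) := h4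
        _ ≤ C * (θ ^ (κ + ε - 1) * ((n : ℝ) ^ (1 - s + η * ε) * (1 / n))) := by
          rw [← h6]
          exact mul_le_mul_of_nonneg_left h5 hC.le
        _ = (C * θ ^ (κ + ε - 1)) * (n : ℝ) ^ (1 - s + η * ε) * (1 / n) := by ring
        _ ≤ C2 * (X : ℝ) ^ (1 - s + η * ε) * (1 / n) := by
          apply mul_le_mul_of_nonneg_right _ h9
          apply mul_le_mul _ h7 (by positivity) hC20.le
          rw [hC2]
          linarith
  -- the number of the exceptions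
  obtain ⟨cnt, hcnt⟩ : ∃ cnt : ℕ → ℝ → ℕ, cnt = fun X x => ((Icc 1 X).filter fun n => x ∈ Bad P κ (lam n) (c n)).card := ⟨_, rfl⟩
  have hmono : ∀ X Y : ℕ, X ≤ Y → ∀ x, cnt X x ≤ cnt Y x := by
    intro X Y hXY x
    rw [hcnt]
    exact card_le_card (filter_subset_filter _ (Icc_subset_Icc le_rfl hXY))
  have hmark : ∀ X : ℕ, 1 ≤ X → ∀ T : ℝ, 0 < T → μ.real {x | T ≤ cnt X x} ≤
      C2 * (X : ℝ) ^ (1 - s + η * ε) * (1 + Real.log X) / T := by
    intro X hX T hT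
    have hint : ∀ n ∈ Icc 1 X, Integrable ((Bad P κ (lam n) (c n)).indicator fun _ => (1 : ℝ)) μ := by
      intro n _
      exact (integrable_const _).indicator (bad_meas P κ (lam n) (c n))
    have hfe : ∀ x, (cnt X x : ℝ) = ∑ n ∈ Icc 1 X, (Bad P κ (lam n) (c n)).indicator (fun _ => (1 : ℝ)) x := by
      intro x
      rw [hcnt]
      simp only [Finset.card_filter, Set.indicator_apply]
      push_cast
      rfl
    have h1 := mul_meas_ge_le_integral_of_nonneg (μ := μ)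
      (f := fun x => ∑ n ∈ Icc 1 X, (Bad P κ (lam n) (c n)).indicator (fun _ => (1 : ℝ)) x)
      (Eventually.of_forall fun x => Finset.sum_nonneg fun n _ => Set.indicator_nonneg (fun _ _ => zero_le_one) _)
      (integrable_finsetSum _ hint) T
    rw [integral_finsetSum _ hint] at h1
    have h2 : ∑ n ∈ Icc 1 X, ∫ x, (Bad P κ (lam n) (c n)).indicator (fun _ => (1 : ℝ)) x ∂μ ≤
        C2 * (X : ℝ) ^ (1 - s + η * ε) * (1 + Real.log X) := by
      have h3 : ∀ n ∈ Icc 1 X, ∫ x, (Bad P κ (lam n) (c n)).indicator (fun _ => (1 : ℝ)) x ∂μ ≤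
          C2 * (X : ℝ) ^ (1 - s + η * ε) * (1 / n) := by
        intro n hn
        rw [mem_Icc] at hn
        rw [integral_indicator_const _ (bad_meas P κ (lam n) (c n)), smul_eq_mul, mul_one]
        exact hb n hn.1 X hn.2
      refine (sum_le_sum h3).trans ?_
      rw [← mul_sum]
      apply mul_le_mul_of_nonneg_left _ (by positivity)
      have h4 := harmonic_le_one_add_log X
      rw [harmonic_eq_sum_Icc] at h4
      push_cast at h4
      simpa [one_div] using h4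
    have e1 : {x | T ≤ (cnt X x : ℝ)} =
        {x | T ≤ ∑ n ∈ Icc 1 X, (Bad P κ (lam n) (c n)).indicator (fun _ => (1 : ℝ)) x} := by
      ext x
      simp only [Set.mem_ofPred_eq, hfe]
    rw [e1, le_div_iff₀ hT]
    calc _ = T * μ.real {x | T ≤ ∑ n ∈ Icc 1 X, (Bad P κ (lam n) (c n)).indicator (fun _ => (1 : ℝ)) x} := mul_comm _ _
      _ ≤ _ := h1.trans h2
  -- the powers of two
  have hex : 0 < 1 - s + δ / 2 := by linarith
  obtain ⟨r, hr⟩ : ∃ r : ℝ, r = (2 : ℝ) ^ (-(δ / 4)) := ⟨_, rfl⟩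
  have hr0 : 0 < r := by rw [hr]; positivity
  have hr1 : r < 1 := by
    rw [hr]
    exact Real.rpow_lt_one_of_one_lt_of_neg (by norm_num) (by linarith)
  have hae := bc0 μ (fun j => {x | ((2 : ℝ) ^ j) ^ (1 - s + δ / 2) ≤ cnt (2 ^ j) x})
    (fun j : ℕ => C2 * (1 + 1 / (δ / 8)) * r ^ j) ((summable_geometric_of_lt_one hr0.le hr1).mul_left _) (by
      refine Eventually.of_forall fun j => ?_
      obtain ⟨Y, hY⟩ : ∃ Y : ℝ, Y = (2 : ℝ) ^ j := ⟨_, rfl⟩
      have hY1 : 1 ≤ Y := by rw [hY]; exact one_le_pow₀ (by norm_num)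
      have hY0 : 0 < Y := by linarith
      have hYc : (((2 ^ j : ℕ)) : ℝ) = Y := by rw [hY]; push_cast; rfl
      have h1 := hmark (2 ^ j) Nat.one_le_two_pow (Y ^ (1 - s + δ / 2)) (by positivity)
      rw [hYc] at h1
      rw [← hY]
      refine h1.trans ?_
      have h2 := Pool.Agent.H951R4.OD.one_add_log_le (δ / 8) Y (by positivity) hY1
      rw [div_le_iff₀ (by positivity)]
      have h3 : C2 * Y ^ (1 - s + η * ε) * (1 + Real.log Y) ≤
          C2 * Y ^ (1 - s + η * ε) * ((1 + 1 / (δ / 8)) * Y ^ (δ / 8)) := mul_le_mul_of_nonneg_left h2 (by positivity)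
      refine h3.trans ?_
      have h4 : r ^ j * Y ^ (1 - s + δ / 2) = Y ^ (1 - s + δ / 4) := by
        have h5 : r ^ j = Y ^ (-(δ / 4)) := by
          rw [hr, hY, ← Real.rpow_natCast, ← Real.rpow_mul (by norm_num), ← Real.rpow_natCast (2 : ℝ) j,
            ← Real.rpow_mul (by norm_num), mul_comm]
        rw [h5, ← Real.rpow_add hY0]
        congr 1
        ring
      have h6 : Y ^ (1 - s + η * ε) * Y ^ (δ / 8) ≤ Y ^ (1 - s + δ / 4) := by
        rw [← Real.rpow_add hY0]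
        exact Real.rpow_le_rpow_of_exponent_le hY1 (by linarith)
      calc C2 * Y ^ (1 - s + η * ε) * ((1 + 1 / (δ / 8)) * Y ^ (δ / 8)) =
            C2 * (1 + 1 / (δ / 8)) * (Y ^ (1 - s + η * ε) * Y ^ (δ / 8)) := by ring
        _ ≤ C2 * (1 + 1 / (δ / 8)) * Y ^ (1 - s + δ / 4) := mul_le_mul_of_nonneg_left h6 (by positivity)
        _ = C2 * (1 + 1 / (δ / 8)) * r ^ j * Y ^ (1 - s + δ / 2) := by rw [← h4]; ring)
  have hfinal : ∀ᶠ X : ℕ in atTop, (2 : ℝ) ^ (1 - s + δ / 2) ≤ (X : ℝ) ^ (δ / 2) :=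
    ((tendsto_rpow_atTop (show 0 < δ / 2 by positivity)).comp tendsto_natCast_atTop_atTop).eventually_ge_atTop _
  filter_upwards [hae] with x hx
  obtain ⟨j₀, hj₀⟩ := eventually_atTop.1 hx
  filter_upwards [hfinal, eventually_ge_atTop (2 ^ j₀), eventually_ge_atTop 1] with X h1 h2 h3
  obtain ⟨j, hj⟩ : ∃ j, j = Nat.log 2 X + 1 := ⟨_, rfl⟩
  have hXj : X < 2 ^ j := by rw [hj]; exact Nat.lt_pow_succ_log_self (by norm_num) X
  have hjX : 2 ^ j ≤ 2 * X := by
    rw [hj, pow_succ]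
    have := Nat.pow_log_le_self 2 (show X ≠ 0 by omega)
    omega
  have hj0 : j₀ ≤ j := by
    have h4 : 2 ^ j₀ < 2 ^ j := h2.trans_lt hXj
    exact ((Nat.pow_lt_pow_iff_right (by norm_num)).1 h4).le
  have h5 := hj₀ j hj0
  simp only [not_le] at h5
  have hX0 : (0 : ℝ) < X := by exact_mod_cast h3
  have h6 : (cnt X x : ℝ) ≤ cnt (2 ^ j) x := by exact_mod_cast hmono X (2 ^ j) hXj.le x
  have h7 : ((2 : ℝ) ^ j) ^ (1 - s + δ / 2) ≤ (2 * X) ^ (1 - s + δ / 2) := by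
    apply Real.rpow_le_rpow (by positivity) _ hex.le
    exact_mod_cast hjX
  have h8 : (2 * (X : ℝ)) ^ (1 - s + δ / 2) ≤ (X : ℝ) ^ (1 - s + δ) := by
    rw [Real.mul_rpow (by norm_num) hX0.le]
    calc (2 : ℝ) ^ (1 - s + δ / 2) * (X : ℝ) ^ (1 - s + δ / 2) ≤ (X : ℝ) ^ (δ / 2) * (X : ℝ) ^ (1 - s + δ / 2) :=
          mul_le_mul_of_nonneg_right h1 (by positivity)
      _ = (X : ℝ) ^ (1 - s + δ) := by
        rw [← Real.rpow_add hX0]
        congr 1
        ring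
  have h9 : ({n ∈ Icc 1 X | ¬ ∀ q : ℤ, |(q : ℝ) - (lam n * x + c n)| ≤ Real.log (lam n) ^ κ → P q} : Set ℕ).ncard = cnt X x := by
    rw [hcnt]
    change _ = ((Icc 1 X).filter fun n => x ∈ Bad P κ (lam n) (c n)).card
    rw [← Set.ncard_coe_finset]
    congr 1
    ext n
    simp only [Set.mem_ofPred_eq, coe_filter, Bad]
  rw [h9]
  linarith

end Pool.Agent.Run7.h582.OD
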